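import Pool.Agent.Lib.MP_9bb24e_co.Defs

/-!
# Upper bounds for the reflexivity: notions

An instance is a finite set `S` in general position with a hull edge `v w`, all other points
lying to the left of the line from `v` to `w`. We look for simple paths from `v` to `w` through
all points of `S` with few left turns; closed by the edge `w v` such a path is a polygonization
(traversed clockwise) whose reflex vertices are the left turns.
-/

set_option autoImplicit false

namespace Pool.Agent.Lib.MP_9bb24e_co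

open Finset

/-- No edge of the chain (third argument) meets the segment from `a` to `b`. -/
def AvoidE (a b : ℝ × ℝ) : List (ℝ × ℝ) → Prop
  | c :: d :: t => (∀ z ∈ segment ℝ a b, z ∉ segment ℝ c d) ∧ AvoidE a b (d :: t)
  | _ => True

/-- Edges of the chain that are not adjacent are disjoint. -/
def SimpleE : List (ℝ × ℝ) → Prop
  | a :: b :: c :: t => AvoidE a b (c :: t) ∧ SimpleE (b :: c :: t)
  | _ => True

open Classical in
/-- Number of left turns of a chain. -/
noncomputable def leftT : List (ℝ × ℝ) → ℕ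
  | a :: b :: c :: t => (if 0 < cross a b c then 1 else 0) + leftT (b :: c :: t)
  | _ => 0

/-- A set in general position with the hull edge `v w`. -/
structure Inst (S : Finset (ℝ × ℝ)) (v w : ℝ × ℝ) : Prop where
  gp : GenPos S
  v_mem : v ∈ S
  w_mem : w ∈ S
  ne : v ≠ w
  left : ∀ p ∈ S, p ≠ v → p ≠ w → 0 < cross v w p

/-- A simple path from `v` to `w` through all points of `S` with at most `r` left turns. -/
def TP (S : Finset (ℝ × ℝ)) (v w : ℝ × ℝ) (r : ℕ) : Prop :=
  ∃ l : List (ℝ × ℝ), l.Nodup ∧ (∀ x, x ∈ l ↔ x ∈ S) ∧ l.head? = some v ∧ l.getLast? = some w ∧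
    SimpleE l ∧ leftT l ≤ r

/-- The instance `S, v, w` is cut by a line through `s` into the instances `S1, v, s` and
`S2, s, w`. -/
structure Split (S S1 S2 : Finset (ℝ × ℝ)) (v w s : ℝ × ℝ) : Prop where
  inst : Inst S v w
  inst1 : Inst S1 v s
  inst2 : Inst S2 s w
  mem_iff : ∀ p, p ∈ S ↔ p ∈ S1 ∨ p ∈ S2
  inter : ∀ p, p ∈ S1 → p ∈ S2 → p = s
  sep : ∃ a b : ℝ, (∀ p ∈ S1, p ≠ s → a * p.1 + b * p.2 < a * s.1 + b * s.2) ∧
    (∀ p ∈ S2, p ≠ s → a * s.1 + b * s.2 < a * p.1 + b * p.2)

/-- `s` is an apex: the triangle `v s w` contains no point of `S`. -/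
def Apex (S : Finset (ℝ × ℝ)) (v w s : ℝ × ℝ) : Prop :=
  s ∈ S ∧ s ≠ v ∧ s ≠ w ∧ ∀ p ∈ S, p ≠ v → p ≠ w → p ≠ s → 0 < cross v s p ∨ 0 < cross s w p

/-- Points of `S` that belong to the `v` side of the apex `s` for every line through `s`. -/
noncomputable def sideV (S : Finset (ℝ × ℝ)) (v w s : ℝ × ℝ) : Finset (ℝ × ℝ) := by
  classical exact S.filter (fun p => 0 < cross v s p ∧ cross s w p < 0)

/-- Points of `S` that belong to the `w` side of the apex `s` for every line through `s`. -/
noncomputable def sideW (S : Finset (ℝ × ℝ)) (v w s : ℝ × ℝ) : Finset (ℝ × ℝ) := by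
  classical exact S.filter (fun p => cross v s p < 0 ∧ 0 < cross s w p)

/-- Points of `S` in the cone over the apex `s`. -/
noncomputable def cone (S : Finset (ℝ × ℝ)) (v w s : ℝ × ℝ) : Finset (ℝ × ℝ) := by
  classical exact S.filter (fun p => 0 < cross v s p ∧ 0 < cross s w p)

end Pool.Agent.Lib.MP_9bb24e_co
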