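import Pool.Agent.Lib.MP_9bb24e_co.Area
import Pool.Agent.Lib.MP_9bb24e_co.U.Defs

/-!
# Module AreaNeg: sense of rotation of a polygon with a given hull edge

A rotation with stretching puts the hull edge `w v` in an almost vertical position with `v` the
leftmost vertex; then `area_sign` is used.
-/

set_option autoImplicit false

namespace Pool.Agent.Lib.MP_9bb24e_co

open Finset Filter Topology

private theorem AreaNeg_pos {α β : ℝ} (h : 0 < α ∨ (α = 0 ∧ 0 < β)) :
    ∀ᶠ ε in 𝓝[>] (0 : ℝ), 0 < α + ε * β := by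
  rcases h with h | ⟨h, h2⟩
  · have hc : Tendsto (fun ε : ℝ => α + ε * β) (𝓝 0) (𝓝 (α + 0 * β)) :=
      (continuous_const.add (continuous_id.mul continuous_const)).tendsto 0
    rw [zero_mul, add_zero] at hc
    exact (hc.eventually (lt_mem_nhds h)).filter_mono nhdsWithin_le_nhds
  · filter_upwards [self_mem_nhdsWithin] with ε hε
    rw [h, zero_add]
    exact mul_pos hε h2

private theorem AreaNeg_ne {α β : ℝ} (h : α ≠ 0 ∨ β ≠ 0) :
    ∀ᶠ ε in 𝓝[>] (0 : ℝ), α + ε * β ≠ 0 := by
  have key : (0 < α ∨ (α = 0 ∧ 0 < β)) ∨ (0 < -α ∨ (-α = 0 ∧ 0 < -β)) := by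
    rcases lt_trichotomy α 0 with h1 | h1 | h1
    · exact Or.inr (Or.inl (by linarith))
    · rcases lt_trichotomy β 0 with h2 | h2 | h2
      · exact Or.inr (Or.inr ⟨by linarith, by linarith⟩)
      · exact absurd h (by simp [h1, h2])
      · exact Or.inl (Or.inr ⟨h1, h2⟩)
    · exact Or.inl (Or.inl h1)
  rcases key with h1 | h1
  · filter_upwards [AreaNeg_pos h1] with ε hε
    exact hε.ne'
  · filter_upwards [AreaNeg_pos h1] with ε hε
    intro h0
    have : -α + ε * -β = 0 := by linear_combination -h0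
    linarith

private theorem AreaNeg_col {a b c : ℝ × ℝ} (hab : a ≠ b) (h : cross a b c = 0) :
    Collinear ℝ {a, b, c} := by
  have hne : b.1 - a.1 ≠ 0 ∨ b.2 - a.2 ≠ 0 := by
    by_contra hcon
    push Not at hcon
    exact hab (Prod.ext (by linarith [hcon.1]) (by linarith [hcon.2]))
  unfold cross at h
  have ht : ∃ t : ℝ, c = t • (b - a) + a := by
    rcases hne with h1 | h1
    · refine ⟨(c.1 - a.1) / (b.1 - a.1), Prod.ext ?_ ?_⟩
      · simp only [Prod.fst_add, Prod.smul_fst, Prod.fst_sub, smul_eq_mul]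
        field_simp
        ring
      · simp only [Prod.snd_add, Prod.smul_snd, Prod.snd_sub, smul_eq_mul]
        have h2 : (c.1 - a.1) / (b.1 - a.1) * (b.2 - a.2) = c.2 - a.2 := by
          rw [div_mul_eq_mul_div, div_eq_iff h1]
          linear_combination -h
        linarith
    · refine ⟨(c.2 - a.2) / (b.2 - a.2), Prod.ext ?_ ?_⟩
      · simp only [Prod.fst_add, Prod.smul_fst, Prod.fst_sub, smul_eq_mul]
        have h2 : (c.2 - a.2) / (b.2 - a.2) * (b.1 - a.1) = c.1 - a.1 := by
          rw [div_mul_eq_mul_div, div_eq_iff h1]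
          linear_combination h
        linarith
      · simp only [Prod.snd_add, Prod.smul_snd, Prod.snd_sub, smul_eq_mul]
        field_simp
        ring
  obtain ⟨t, ht⟩ := ht
  rw [collinear_iff_of_mem (p₀ := a) (by simp)]
  refine ⟨b - a, fun x hx => ?_⟩
  simp only [Set.mem_insert_iff, Set.mem_singleton_iff] at hx
  rcases hx with rfl | rfl | rfl
  · exact ⟨0, by simp⟩
  · exact ⟨1, by simp⟩
  · exact ⟨t, by rw [vadd_eq_add]; exact ht⟩

/-- the rotation with stretching -/
private def AreaNeg_A (a b : ℝ) (x : ℝ × ℝ) : ℝ × ℝ := (a * x.1 + b * x.2, -b * x.1 + a * x.2)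

private theorem AreaNeg_cross (a b : ℝ) (x y z : ℝ × ℝ) :
    cross (AreaNeg_A a b x) (AreaNeg_A a b y) (AreaNeg_A a b z) = (a ^ 2 + b ^ 2) * cross x y z := by
  unfold cross AreaNeg_A
  ring

private theorem AreaNeg_shoe (a b : ℝ) (x y : ℝ × ℝ) :
    (AreaNeg_A a b x).1 * (AreaNeg_A a b y).2 - (AreaNeg_A a b y).1 * (AreaNeg_A a b x).2 =
      (a ^ 2 + b ^ 2) * (x.1 * y.2 - y.1 * x.2) := by
  unfold AreaNeg_A
  ring

private theorem AreaNeg_inj {a b : ℝ} (h : 0 < a ^ 2 + b ^ 2) {x y : ℝ × ℝ}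
    (hxy : AreaNeg_A a b x = AreaNeg_A a b y) : x = y := by
  have h1 := congrArg Prod.fst hxy
  have h2 := congrArg Prod.snd hxy
  simp only [AreaNeg_A] at h1 h2
  apply Prod.ext
  · have h3 : (a ^ 2 + b ^ 2) * x.1 = (a ^ 2 + b ^ 2) * y.1 := by
      linear_combination a * h1 - b * h2
    exact mul_left_cancel₀ h.ne' h3
  · have h3 : (a ^ 2 + b ^ 2) * x.2 = (a ^ 2 + b ^ 2) * y.2 := by
      linear_combination b * h1 + a * h2
    exact mul_left_cancel₀ h.ne' h3

private theorem AreaNeg_seg {a b : ℝ} {x y z : ℝ × ℝ}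
    (hz : z ∈ segment ℝ (AreaNeg_A a b x) (AreaNeg_A a b y)) :
    ∃ z' ∈ segment ℝ x y, z = AreaNeg_A a b z' := by
  obtain ⟨s, t, hs, ht, hst, rfl⟩ := hz
  refine ⟨s • x + t • y, ⟨s, t, hs, ht, hst, rfl⟩, ?_⟩
  unfold AreaNeg_A
  apply Prod.ext
  · simp only [Prod.fst_add, Prod.smul_fst, Prod.snd_add, Prod.smul_snd, smul_eq_mul]
    ring
  · simp only [Prod.fst_add, Prod.smul_fst, Prod.snd_add, Prod.smul_snd, smul_eq_mul]
    ring

private theorem AreaNeg_sum {N : ℕ} [NeZero N] (m : ZMod N) (f : ZMod N → ℝ) :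
    ∑ i, f i = ∑ k ∈ range N, f (m + (k : ZMod N)) := by
  symm
  apply Finset.sum_nbij' (i := fun k : ℕ => m + (k : ZMod N)) (j := fun i : ZMod N => (i - m).val)
  · intro a _; exact mem_univ _
  · intro a _; exact mem_range.2 (ZMod.val_lt _)
  · intro a ha
    simp only [add_sub_cancel_left]
    exact ZMod.val_natCast_of_lt (mem_range.1 ha)
  · intro a _
    simp only [ZMod.natCast_val, ZMod.cast_id', id_eq, add_sub_cancel]
  · intro a _; rfl

private theorem AreaNeg_aux {S : Finset (ℝ × ℝ)} {N : ℕ} (p : ZMod N → ℝ × ℝ)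
    (hinj : Function.Injective p) (hrange : ∀ j, p j ∈ S)
    (hsimple : ∀ i j : ZMod N, i ≠ j → ∀ z : ℝ × ℝ, z ∈ segment ℝ (p i) (p (i + 1)) →
      z ∈ segment ℝ (p j) (p (j + 1)) →
        (z = p i ∨ z = p (i + 1)) ∧ (z = p j ∨ z = p (j + 1)))
    (hS : GenPos S) (hN : 3 ≤ N) (i : ZMod N)
    (hull : ∀ x ∈ S, x ≠ p i → x ≠ p (i + 1) → cross (p i) (p (i + 1)) x < 0) :
    area2 p < 0 := by
  have : NeZero N := ⟨by omega⟩
  have hcastN : ((N : ℕ) : ZMod N) = 0 := ZMod.natCast_self N
  have hcast_inj : ∀ i, i < N → ∀ j, j < N → (i : ZMod N) = (j : ZMod N) → i = j := by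
    intro i hi j hj hij
    have := congrArg ZMod.val hij
    rwa [ZMod.val_natCast_of_lt hi, ZMod.val_natCast_of_lt hj] at this
  have h1ne : (1 : ZMod N) ≠ 0 := by
    intro h
    have := hcast_inj 1 (by omega) 0 (by omega) (by simpa using h)
    omega
  set w := p i with hw
  set v := p (i + 1) with hv
  have hvw : v ≠ w := by
    intro h
    have := hinj h
    exact h1ne (by simpa using this)
  set u := w - v with hu
  have hu0 : 0 < u.1 ^ 2 + u.2 ^ 2 := by
    have : u.1 ≠ 0 ∨ u.2 ≠ 0 := by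
      by_contra hcon
      push Not at hcon
      apply hvw
      have h1 : w - v = 0 := Prod.ext hcon.1 hcon.2
      exact (sub_eq_zero.1 h1).symm
    rcases this with h | h <;> positivity
  -- choice of the slope
  have ev1 : ∀ᶠ ε in 𝓝[>] (0 : ℝ), ∀ x ∈ S, x ≠ v →
      0 < (-u.2 * (x.1 - v.1) + u.1 * (x.2 - v.2)) + ε * (u.1 * (x.1 - v.1) + u.2 * (x.2 - v.2)) := by
    rw [Finset.eventually_all]
    intro x hx
    by_cases hxv : x = v
    · exact Eventually.of_forall fun ε h => absurd hxv h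
    · have h0 : 0 < (-u.2 * (x.1 - v.1) + u.1 * (x.2 - v.2)) ∨
          ((-u.2 * (x.1 - v.1) + u.1 * (x.2 - v.2)) = 0 ∧
            0 < (u.1 * (x.1 - v.1) + u.2 * (x.2 - v.2))) := by
        by_cases hxw : x = w
        · right
          have e1 : x.1 - v.1 = u.1 := by rw [hxw, hu, Prod.fst_sub]
          have e2 : x.2 - v.2 = u.2 := by rw [hxw, hu, Prod.snd_sub]
          rw [e1, e2]
          constructor
          · ring
          · nlinarith
        · left
          have h1 := hull x hx hxw hxv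
          unfold cross at h1
          have e1 : u.1 = w.1 - v.1 := by rw [hu, Prod.fst_sub]
          have e2 : u.2 = w.2 - v.2 := by rw [hu, Prod.snd_sub]
          rw [e1, e2]
          nlinarith
      filter_upwards [AreaNeg_pos h0] with ε hε _
      exact hε
  have ev2 : ∀ᶠ ε in 𝓝[>] (0 : ℝ), ∀ x ∈ S, ∀ y ∈ S, x ≠ y →
      (-u.2 * (x.1 - y.1) + u.1 * (x.2 - y.2)) + ε * (u.1 * (x.1 - y.1) + u.2 * (x.2 - y.2)) ≠ 0 := by
    rw [Finset.eventually_all]
    intro x hx
    rw [Finset.eventually_all]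
    intro y hy
    by_cases hxy : x = y
    · exact Eventually.of_forall fun ε h => absurd hxy h
    · have h0 : (-u.2 * (x.1 - y.1) + u.1 * (x.2 - y.2)) ≠ 0 ∨
          (u.1 * (x.1 - y.1) + u.2 * (x.2 - y.2)) ≠ 0 := by
        by_contra hcon
        push Not at hcon
        obtain ⟨c1, c2⟩ := hcon
        apply hxy
        apply Prod.ext
        · have : (u.1 ^ 2 + u.2 ^ 2) * (x.1 - y.1) = 0 := by
            linear_combination u.1 * c2 - u.2 * c1
          rcases mul_eq_zero.1 this with h | h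
          · exact absurd h hu0.ne'
          · linarith
        · have : (u.1 ^ 2 + u.2 ^ 2) * (x.2 - y.2) = 0 := by
            linear_combination u.2 * c2 + u.1 * c1
          rcases mul_eq_zero.1 this with h | h
          · exact absurd h hu0.ne'
          · linarith
      filter_upwards [AreaNeg_ne h0] with ε hε _
      exact hε
  obtain ⟨ε, hε1, hε2⟩ := (ev1.and ev2).exists
  set a := -u.2 + ε * u.1 with ha
  set b := u.1 + ε * u.2 with hb
  have hdet : 0 < a ^ 2 + b ^ 2 := by
    have : a ^ 2 + b ^ 2 = (1 + ε ^ 2) * (u.1 ^ 2 + u.2 ^ 2) := by rw [ha, hb]; ring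
    rw [this]
    positivity
  set q : ℕ → ℝ × ℝ := fun k => AreaNeg_A a b (p (i + 1 + (k : ZMod N))) with hqdef
  have hq0 : q 0 = AreaNeg_A a b v := by simp only [hqdef, Nat.cast_zero, add_zero, hv]
  have hqper : ∀ k, q (k + N) = q k := by
    intro k; simp only [hqdef, Nat.cast_add, hcastN, add_zero]
  have hqs : ∀ k, q (k + 1) = AreaNeg_A a b (p (i + 1 + (k : ZMod N) + 1)) := by
    intro k; simp only [hqdef, Nat.cast_add, Nat.cast_one, add_assoc]
  have hfst : ∀ x y : ℝ × ℝ, (AreaNeg_A a b x).1 - (AreaNeg_A a b y).1 =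
      (-u.2 * (x.1 - y.1) + u.1 * (x.2 - y.2)) + ε * (u.1 * (x.1 - y.1) + u.2 * (x.2 - y.2)) := by
    intro x y
    simp only [AreaNeg_A]
    rw [ha, hb]
    ring
  have hne : ∀ j, j < N → ∀ k, k < N → j ≠ k →
      p (i + 1 + (j : ZMod N)) ≠ p (i + 1 + (k : ZMod N)) := by
    intro j hj k hk hjk h
    exact hjk (hcast_inj j hj k hk (add_left_cancel (hinj h)))
  have hPg : Pg N q := by
    refine ⟨hN, hqper, ?_, ?_, ?_, ?_⟩
    · intro j hj k hk hjk
      by_contra hcon
      have h1 := hε2 _ (hrange _) _ (hrange _) (hne j hj k hk hcon)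
      rw [← hfst] at h1
      apply h1
      have h2 : (AreaNeg_A a b (p (i + 1 + (j : ZMod N)))).1 =
        (AreaNeg_A a b (p (i + 1 + (k : ZMod N)))).1 := hjk
      rw [h2, sub_self]
    · intro j hj k hk l hl hjk hkl hjl h0
      have h1 : (a ^ 2 + b ^ 2) * cross (p (i + 1 + (j : ZMod N))) (p (i + 1 + (k : ZMod N)))
          (p (i + 1 + (l : ZMod N))) = 0 := by
        rw [← AreaNeg_cross]; exact h0
      rcases mul_eq_zero.1 h1 with h | h
      · exact hdet.ne' h
      · exact hS _ (hrange _) _ (hrange _) _ (hrange _) (hne j hj k hk hjk) (hne k hk l hl hkl)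
          (hne j hj l hl hjl) (AreaNeg_col (hne j hj k hk hjk) h)
    · intro j hj k hk hjk z hz1 hz2
      rw [hqs] at hz1 hz2
      have hz1' : z ∈ segment ℝ (AreaNeg_A a b (p (i + 1 + (j : ZMod N))))
        (AreaNeg_A a b (p (i + 1 + (j : ZMod N) + 1))) := hz1
      have hz2' : z ∈ segment ℝ (AreaNeg_A a b (p (i + 1 + (k : ZMod N))))
        (AreaNeg_A a b (p (i + 1 + (k : ZMod N) + 1))) := hz2
      obtain ⟨z1, hz1s, rfl⟩ := AreaNeg_seg hz1'
      obtain ⟨z2, hz2s, h12⟩ := AreaNeg_seg hz2'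
      have h3 := AreaNeg_inj hdet h12
      subst h3
      have hjk' : i + 1 + (j : ZMod N) ≠ i + 1 + (k : ZMod N) :=
        fun h => hjk (hcast_inj j hj k hk (add_left_cancel h))
      have h4 := hsimple _ _ hjk' z1 hz1s hz2s
      rw [hqs, hqs]
      have e1 : q j = AreaNeg_A a b (p (i + 1 + (j : ZMod N))) := rfl
      have e2 : q k = AreaNeg_A a b (p (i + 1 + (k : ZMod N))) := rfl
      rw [e1, e2]
      refine ⟨?_, ?_⟩
      · rcases h4.1 with h | h
        · left; rw [h]
        · right; rw [h]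
      · rcases h4.2 with h | h
        · left; rw [h]
        · right; rw [h]
    · intro j hj1 hj2
      rw [hq0]
      have h1 : p (i + 1 + (j : ZMod N)) ≠ v := by
        intro h
        have h2 := hinj h
        have h3 : (j : ZMod N) = ((0 : ℕ) : ZMod N) := by
          rw [Nat.cast_zero]
          exact add_eq_left.1 h2
        have := hcast_inj j hj2 0 (by omega) h3
        omega
      have h2 := hε1 _ (hrange _) h1
      rw [← hfst] at h2
      have h3 : q j = AreaNeg_A a b (p (i + 1 + (j : ZMod N))) := rfl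
      rw [h3]
      linarith
  have hsgn := area_sign hPg
  have hsum : ∑ k ∈ range N, ((q k).1 * (q (k + 1)).2 - (q (k + 1)).1 * (q k).2) =
      (a ^ 2 + b ^ 2) * area2 p := by
    unfold area2
    rw [finsum_eq_sum_of_fintype, AreaNeg_sum (i + 1), mul_sum]
    apply Finset.sum_congr rfl
    intro k _
    rw [hqs, ← AreaNeg_shoe]
  have hturn : turn N q 0 = (a ^ 2 + b ^ 2) * cross w v (p (i + 1 + 1)) := by
    unfold turn
    have e1 : q (0 + (N - 1)) = AreaNeg_A a b w := by
      simp only [hqdef]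
      congr 2
      rw [zero_add, Nat.cast_sub (by omega), hcastN, Nat.cast_one]
      ring
    have e2 : q (0 + 1) = AreaNeg_A a b (p (i + 1 + 1)) := by
      rw [hqs]; simp only [Nat.cast_zero, add_zero]
    rw [e1, e2, hq0, AreaNeg_cross]
  have hlast : cross w v (p (i + 1 + 1)) < 0 := by
    apply hull _ (hrange _)
    · intro h
      have h2 := hinj h
      have h3 : ((2 : ℕ) : ZMod N) = ((0 : ℕ) : ZMod N) := by
        have h4 : i + 1 + 1 = i + ((2 : ℕ) : ZMod N) := by push_cast; ring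
        rw [h4] at h2
        rw [Nat.cast_zero]
        exact add_eq_left.1 h2
      have := hcast_inj 2 (by omega) 0 (by omega) h3
      omega
    · intro h
      have h2 := hinj h
      exact h1ne (add_eq_left.1 h2)
  rw [hsum, hturn] at hsgn
  by_contra hcon
  push Not at hcon
  have h1 : (a ^ 2 + b ^ 2) * cross w v (p (i + 1 + 1)) < 0 := mul_neg_of_pos_of_neg hdet hlast
  have h2 : 0 ≤ (a ^ 2 + b ^ 2) * area2 p := mul_nonneg hdet.le hcon
  have h3 := mul_nonpos_of_nonpos_of_nonneg h1.le h2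
  linarith

/-- A polygon one of whose edges has all other vertices to its right is traversed clockwise. -/
theorem area2_neg {S : Finset (ℝ × ℝ)} {p : ZMod S.card → ℝ × ℝ} (hp : IsPolygonization S p)
    (hS : GenPos S) (h3 : 3 ≤ S.card) (i : ZMod S.card)
    (hull : ∀ x ∈ S, x ≠ p i → x ≠ p (i + 1) → cross (p i) (p (i + 1)) x < 0) :
    area2 p < 0 := by
  refine AreaNeg_aux p hp.inj (fun j => ?_) hp.simple hS h3 i hull
  have : p j ∈ (S : Set (ℝ × ℝ)) := by rw [← hp.range_eq]; exact ⟨j, rfl⟩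
  exact mem_coe.1 this

end Pool.Agent.Lib.MP_9bb24e_co
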