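import Pool.Agent.Lib.MP_9bb24e_co.U.Enum

/-!
# A path given by indices: definitions
`q` sorts the points other than `v` around `v`, `q 0 = w`. A path is a list `f :: t` of indices,
a permutation of `0, ..., N` with `N + 2 = S.card` ending in `0`; it stands for the list
`v, q f, ...`. `sg σ i j k` is the sign of `cross (q i) (q j) (q k)` for different
indices in any order. `crE σ a b c d` says that the segments `q a q b` and `q c q d` (four
different indices) do not cross, `crV σ f a b` that the segment `v q f` does not cross `q a q b`.
-/

set_option autoImplicit false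

namespace Pool.Agent.Lib.MP_9bb24e_co

open Finset

/-- Sign of the triple `i j k` in any order from the signs of sorted triples. -/
def sg (σ : ℕ → ℕ → ℕ → Bool) (i j k : ℕ) : Bool :=
  if i < j then
    if j < k then σ i j k
    else if i < k then !(σ i k j) else σ k i j
  else
    if i < k then !(σ j i k)
    else if j < k then σ j k i else !(σ k j i)

/-- Segments `a b` and `c d`, with `a < b`, `c < d`, `a < c`, do not cross. -/
def crA (σ : ℕ → ℕ → ℕ → Bool) (a b c d : ℕ) : Bool :=
  if b < c then true
  else if d < b then (σ a c b == σ a d b)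
  else (σ a c b != σ c b d)

/-- Segments `a b` and `c d` (four different indices) do not cross. -/
def crE (σ : ℕ → ℕ → ℕ → Bool) (a b c d : ℕ) : Bool :=
  let a' := min a b; let b' := max a b; let c' := min c d; let d' := max c d
  if a' < c' then crA σ a' b' c' d' else crA σ c' d' a' b'

/-- The segment `v f` does not cross the segment `a b` (three different indices). -/
def crV (σ : ℕ → ℕ → ℕ → Bool) (f a b : ℕ) : Bool :=
  let a' := min a b; let b' := max a b
  if a' < f && f < b' then !(σ a' f b') else true

/-- The edge `a b` crosses no edge of the list. -/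
def avE (σ : ℕ → ℕ → ℕ → Bool) (a b : ℕ) : List ℕ → Bool
  | c :: d :: t => crE σ a b c d && avE σ a b (d :: t)
  | _ => true

/-- The edge `v f` crosses no edge of the list. -/
def avV (σ : ℕ → ℕ → ℕ → Bool) (f : ℕ) : List ℕ → Bool
  | c :: d :: t => crV σ f c d && avV σ f (d :: t)
  | _ => true

/-- Non adjacent edges of the list do not cross. -/
def simE (σ : ℕ → ℕ → ℕ → Bool) : List ℕ → Bool
  | a :: b :: c :: t => avE σ a b (c :: t) && simE σ (b :: c :: t)
  | _ => true

/-- Number of left turns of the list. -/
def ltE (σ : ℕ → ℕ → ℕ → Bool) : List ℕ → ℕ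
  | a :: b :: c :: t => (if sg σ a b c then 1 else 0) + ltE σ (b :: c :: t)
  | _ => 0

/-- The path `v, f, ...`: simple. -/
def simP (σ : ℕ → ℕ → ℕ → Bool) (l : List ℕ) : Bool :=
  match l with
  | f :: g :: t => avV σ f (g :: t) && simE σ (f :: g :: t)
  | _ => true

/-- The path `v, f, g, ...`: number of left turns. -/
def ltP (σ : ℕ → ℕ → ℕ → Bool) (l : List ℕ) : ℕ :=
  match l with
  | f :: g :: t => (if f < g then 1 else 0) + ltE σ (f :: g :: t)
  | _ => 0

open Classical in
/-- The signs of an instance. -/
noncomputable def sgn (q : ℕ → ℝ × ℝ) (i j k : ℕ) : Bool := decide (0 < cross (q i) (q j) (q k))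

end Pool.Agent.Lib.MP_9bb24e_co
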