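import Pool.Agent.Lib.MP_9bb24e_co.U.Code

/-!
# Module CodeA: crossing tests
Proofs. Four different points in general position: the segments `x y` and `z u` have a common
point only if `z, u` are on different sides of the line `x y` and `x, y` on different sides of
`z u`. Seen from `v` the points are sorted by angle: for `a < b`, `c < d`: if `b < c` or `d < a` the
segments are disjoint; nested `a < c < d < b`: disjoint if `c, d` are on the same side of `a b`;
overlapping `a < c < b < d`: disjoint if `σ a c b ≠ σ c b d`. For `v`: the segment `v q f` meets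
`q a q b` (`a < b`) only if `a < f < b` and `q f` is on the right side of `q a q b`, that is
`0 < cross (q a) (q f) (q b)`.
-/

set_option autoImplicit false

namespace Pool.Agent.Lib.MP_9bb24e_co

open Finset

/-- The cross product along a segment. -/
theorem codeA_seg {a b c d z : ℝ × ℝ} (hz : z ∈ segment ℝ c d) :
    ∃ u v : ℝ, 0 ≤ u ∧ 0 ≤ v ∧ u + v = 1 ∧ cross a b z = u * cross a b c + v * cross a b d := by
  obtain ⟨u, v, hu, hv, huv, rfl⟩ := hz
  refine ⟨u, v, hu, hv, huv, ?_⟩
  have hv' : v = 1 - u := by linarith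
  subst hv'
  simp only [cross, Prod.fst_add, Prod.snd_add, Prod.smul_fst, Prod.smul_snd, smul_eq_mul]
  ring

/-- The cross product vanishes on the segment. -/
theorem codeA_zero {a b z : ℝ × ℝ} (hz : z ∈ segment ℝ a b) : cross a b z = 0 := by
  obtain ⟨u, v, -, -, -, h⟩ := codeA_seg (a := a) (b := b) hz
  rw [h]
  simp only [cross]
  ring

/-- Same sign at the end points: the cross product does not vanish. -/
theorem codeA_ne {a b c d z : ℝ × ℝ} (hz : z ∈ segment ℝ c d)
    (h : 0 < cross a b c * cross a b d) : cross a b z ≠ 0 := by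
  obtain ⟨u, v, hu, hv, huv, h1⟩ := codeA_seg (a := a) (b := b) hz
  rw [h1]
  rcases pos_and_pos_or_neg_and_neg_of_mul_pos h with ⟨h2, h3⟩ | ⟨h2, h3⟩
  · rcases hu.eq_or_lt with h4 | h4
    · have h5 : v = 1 := by linarith
      rw [← h4, h5]
      intro h6
      linarith
    · have h5 := mul_pos h4 h2
      have h6 := mul_nonneg hv h3.le
      intro h7
      linarith
  · rcases hu.eq_or_lt with h4 | h4
    · have h5 : v = 1 := by linarith
      rw [← h4, h5]
      intro h6
      linarith
    · have h5 := mul_neg_of_pos_of_neg h4 h2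
      have h6 := mul_nonpos_of_nonneg_of_nonpos hv h3.le
      intro h7
      linarith

/-- Disjoint segments: general position and not both separated. -/
theorem seg_disjoint {a b c d : ℝ × ℝ} (h1 : cross a b c ≠ 0) (h2 : cross a b d ≠ 0)
    (h3 : cross c d a ≠ 0) (h4 : cross c d b ≠ 0)
    (h : 0 < cross a b c * cross a b d ∨ 0 < cross c d a * cross c d b) :
    ∀ z ∈ segment ℝ a b, z ∉ segment ℝ c d := by
  intro z hz hz'
  rcases h with h | h
  · exact codeA_ne hz' h (codeA_zero hz)
  · exact codeA_ne hz h (codeA_zero hz')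

theorem codeA_swap (a b c : ℝ × ℝ) : cross a c b = - cross a b c := by
  simp only [cross]
  ring

theorem codeA_rot (a b c : ℝ × ℝ) : cross b c a = cross a b c := by
  simp only [cross]
  ring

theorem sg_eq {S : Finset (ℝ × ℝ)} {v w : ℝ × ℝ} {q : ℕ → ℝ × ℝ} (h : Sorted S v w q)
    {i j k : ℕ} (hi : i + 1 < S.card) (hj : j + 1 < S.card) (hk : k + 1 < S.card) (hij : i ≠ j)
    (hjk : j ≠ k) (hik : i ≠ k) :
    sg (sgn q) i j k = true ↔ 0 < cross (q i) (q j) (q k) := by
  have h0 := h.ne_zero hi hj hk hij hjk hik
  have e1 := codeA_swap (q i) (q j) (q k)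
  have e2 := codeA_rot (q i) (q j) (q k)
  have e3 := codeA_rot (q j) (q k) (q i)
  have e4 := codeA_swap (q j) (q k) (q i)
  have e5 := codeA_swap (q k) (q i) (q j)
  have h1 : ¬ 0 < - cross (q i) (q j) (q k) ↔ 0 < cross (q i) (q j) (q k) := by
    rw [not_lt, Left.neg_nonpos_iff]
    exact ⟨fun h => lt_of_le_of_ne h h0.symm, le_of_lt⟩
  unfold sg sgn
  split_ifs with c1 c2 c3 c4 c5
  · rw [decide_eq_true_iff]
  · rw [Bool.not_eq_true', decide_eq_false_iff_not, e1, h1]
  · rw [decide_eq_true_iff, e3, e2]
  · rw [Bool.not_eq_true', decide_eq_false_iff_not, e4, e2, h1]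
  · rw [decide_eq_true_iff, e2]
  · rw [Bool.not_eq_true', decide_eq_false_iff_not, e5, e3, e2, h1]

/-- The sorted case. -/
theorem codeA_crA {S : Finset (ℝ × ℝ)} {v w : ℝ × ℝ} {q : ℕ → ℝ × ℝ} (h : Sorted S v w q)
    {a b c d : ℕ} (hb : b + 1 < S.card) (hd : d + 1 < S.card) (hab : a < b) (hcd : c < d)
    (hac : a < c) (hbc : b ≠ c) (hbd : b ≠ d) (hcr : crA (sgn q) a b c d = true) :
    ∀ z ∈ segment ℝ (q a) (q b), z ∉ segment ℝ (q c) (q d) := by
  have ha : a + 1 < S.card := by omega
  have hc : c + 1 < S.card := by omega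
  have n1 := h.ne_zero ha hb hc (by omega) (by omega) (by omega)
  have n2 := h.ne_zero ha hb hd (by omega) (by omega) (by omega)
  have n3 := h.ne_zero hc hd ha (by omega) (by omega) (by omega)
  have n4 := h.ne_zero hc hd hb (by omega) (by omega) (by omega)
  have s1 := codeA_swap (q a) (q b) (q c)
  have s2 := codeA_swap (q a) (q b) (q d)
  have s3 := codeA_rot (q a) (q c) (q d)
  have s4 := codeA_swap (q c) (q d) (q b)
  unfold crA sgn at hcr
  split_ifs at hcr with c1 c2
  · intro z hz hz'
    obtain ⟨u, t, hu, ht, hut, h1⟩ := codeA_seg (a := v) (b := q b) hz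
    obtain ⟨u', t', hu', ht', hut', h2⟩ := codeA_seg (a := v) (b := q b) hz'
    have p1 := h.pos a b hab hb
    have p2 := h.pos b c c1 hc
    have p3 := h.pos b d (by omega) hd
    have e1 : cross v (q b) (q a) = - cross v (q a) (q b) := codeA_swap _ _ _
    have e2 : cross v (q b) (q b) = 0 := by
      simp only [cross]
      ring
    rw [e1, e2] at h1
    have h3 : cross v (q b) z ≤ 0 := by
      rw [h1]
      have := mul_nonneg hu p1.le
      linarith
    have h4 : 0 < cross v (q b) z := by
      have h5 := mul_pos p2 p3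
      have h6 := codeA_ne (a := v) (b := q b) hz' h5
      have h7 : 0 ≤ cross v (q b) z := by
        rw [h2]
        have h8 := mul_nonneg hu' p2.le
        have h9 := mul_nonneg ht' p3.le
        linarith
      exact lt_of_le_of_ne h7 h6.symm
    linarith
  · apply seg_disjoint n1 n2 n3 n4
    left
    rw [beq_iff_eq, decide_eq_decide] at hcr
    rw [s1, s2] at hcr
    rcases lt_or_gt_of_ne n1 with g | g <;> rcases lt_or_gt_of_ne n2 with g' | g'
    · exact mul_pos_of_neg_of_neg g g'
    · exfalso
      have := hcr.mp (by linarith)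
      linarith
    · exfalso
      have := hcr.mpr (by linarith)
      linarith
    · exact mul_pos g g'
  · apply seg_disjoint n1 n2 n3 n4
    have hcb : c < b := by omega
    have hbd' : b < d := by omega
    have hsig := h.signotope hac hcb hbd' hd
    rw [bne_iff_ne, Ne, decide_eq_decide] at hcr
    rcases lt_or_gt_of_ne n1 with g | g
    · -- a c b positive
      have g1 : 0 < cross (q a) (q c) (q b) := by rw [s1]; linarith
      have g2 : cross (q c) (q b) (q d) < 0 := by
        rw [s4]
        rcases lt_or_gt_of_ne n4 with g' | g'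
        · exfalso
          apply hcr
          rw [s4]
          constructor
          · intro _
            linarith
          · intro _
            exact g1
        · linarith
      rcases lt_or_gt_of_ne n2 with g' | g'
      · left
        exact mul_pos_of_neg_of_neg g g'
      · right
        have g3 := hsig.1 g1 g'
        rw [s4] at g2
        rw [s3]
        exact mul_pos g3 (by linarith)
    · have g1 : cross (q a) (q c) (q b) < 0 := by rw [s1]; linarith
      have g2 : 0 < cross (q c) (q b) (q d) := by
        by_contra g3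
        apply hcr
        constructor
        · intro g4
          exact absurd g4 (not_lt.mpr g1.le)
        · intro g4
          exact absurd g4 g3
      rcases lt_or_gt_of_ne n2 with g' | g'
      · right
        have g3 := hsig.2.1 g1 g'
        rw [s4] at g2
        rw [s3]
        exact mul_pos_of_neg_of_neg g3 (by linarith)
      · left
        exact mul_pos g g'

theorem codeA_minmax {q : ℕ → ℝ × ℝ} (a b : ℕ) :
    segment ℝ (q (min a b)) (q (max a b)) = segment ℝ (q a) (q b) := by
  rcases le_total a b with h | h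
  · rw [min_eq_left h, max_eq_right h]
  · rw [min_eq_right h, max_eq_left h, segment_symm]

theorem crE_spec {S : Finset (ℝ × ℝ)} {v w : ℝ × ℝ} {q : ℕ → ℝ × ℝ} (h : Sorted S v w q)
    {a b c d : ℕ} (ha : a + 1 < S.card) (hb : b + 1 < S.card) (hc : c + 1 < S.card)
    (hd : d + 1 < S.card) (hab : a ≠ b) (hcd : c ≠ d) (hac : a ≠ c) (had : a ≠ d) (hbc : b ≠ c)
    (hbd : b ≠ d) (hcr : crE (sgn q) a b c d = true) :
    ∀ z ∈ segment ℝ (q a) (q b), z ∉ segment ℝ (q c) (q d) := by
  rw [← codeA_minmax a b, ← codeA_minmax c d]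
  unfold crE at hcr
  simp only at hcr
  split_ifs at hcr with c1
  · exact codeA_crA h (by omega) (by omega) (by omega) (by omega) c1 (by omega) (by omega) hcr
  · intro z hz hz'
    exact codeA_crA h (by omega) (by omega) (by omega) (by omega) (by omega) (by omega)
      (by omega) hcr z hz' hz

theorem crV_spec {S : Finset (ℝ × ℝ)} {v w : ℝ × ℝ} {q : ℕ → ℝ × ℝ} (h : Sorted S v w q)
    {f a b : ℕ} (hf : f + 1 < S.card) (ha : a + 1 < S.card) (hb : b + 1 < S.card) (hab : a ≠ b)
    (hfa : f ≠ a) (hfb : f ≠ b) (hcr : crV (sgn q) f a b = true) :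
    ∀ z ∈ segment ℝ v (q f), z ∉ segment ℝ (q a) (q b) := by
  rw [← codeA_minmax a b]
  obtain ⟨x, hx⟩ : ∃ x, x = min a b := ⟨_, rfl⟩
  obtain ⟨y, hy⟩ : ∃ y, y = max a b := ⟨_, rfl⟩
  unfold crV at hcr
  simp only at hcr
  rw [← hx, ← hy] at hcr ⊢
  have hxy : x < y := by omega
  have hx1 : x + 1 < S.card := by omega
  have hy1 : y + 1 < S.card := by omega
  have hfx : f ≠ x := by omega
  have hfy : f ≠ y := by omega
  intro z hz hz'
  split_ifs at hcr with c1
  · rw [Bool.and_eq_true, decide_eq_true_iff, decide_eq_true_iff] at c1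
    rw [sgn, Bool.not_eq_true', decide_eq_false_iff_not, codeA_swap] at hcr
    have n1 := h.ne_zero hx1 hy1 hf (by omega) (by omega) (by omega)
    have g1 : 0 < cross (q x) (q y) (q f) := by
      rcases lt_or_gt_of_ne n1 with g | g
      · exfalso
        apply hcr
        linarith
      · exact g
    have g2 : cross (q x) (q y) v = cross v (q x) (q y) := codeA_rot _ _ _
    have g3 := h.pos x y hxy hy1
    exact codeA_ne (a := q x) (b := q y) hz (by rw [g2]; exact mul_pos g3 g1) (codeA_zero hz')
  · rw [Bool.and_eq_true, decide_eq_true_iff, decide_eq_true_iff] at c1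
    rcases lt_or_gt_of_ne hfx with g | g
    · exact codeA_ne (a := v) (b := q f) hz'
        (mul_pos (h.pos f x g hx1) (h.pos f y (by omega) hy1)) (codeA_zero hz)
    · have g' : y < f := by omega
      have g1 := h.pos x f g hf
      have g2 := h.pos y f g' hf
      rw [codeA_swap] at g1 g2
      exact codeA_ne (a := v) (b := q f) hz'
        (mul_pos_of_neg_of_neg (by linarith) (by linarith)) (codeA_zero hz)

end Pool.Agent.Lib.MP_9bb24e_co
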