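import Pool.Agent.Lib.MP_9bb24e_co.U.CodeA

/-!
# Module CodeB: a path given by indices
The list of points is `v :: l.map q`. `SimpleE` and `leftT` of this list follow from `simP` and
`ltP` by induction on the list (state the induction for `l.map q` with `simE`, `ltE` first; all
indices of `l` are different and `< S.card - 1`, so `crE_spec`, `crV_spec`, `sg_eq` apply); the turn
at the first vertex `f` is `0 < cross v (q f) (q g)`, that is `f < g` (`Sorted.pos`).
-/

set_option autoImplicit false

namespace Pool.Agent.Lib.MP_9bb24e_co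

open Finset

variable {S : Finset (ℝ × ℝ)} {v w : ℝ × ℝ} {q : ℕ → ℝ × ℝ}

theorem codeB_avV (h : Sorted S v w q) {f : ℕ} (hf : f + 1 < S.card) :
    ∀ l : List ℕ, l.Nodup → (∀ i ∈ l, i + 1 < S.card) → f ∉ l → avV (sgn q) f l = true →
      AvoidE v (q f) (l.map q)
  | [], _, _, _, _ => trivial
  | [_], _, _, _, _ => trivial
  | c :: d :: t, hnd, hl, hfl, hav => by
    rw [avV, Bool.and_eq_true] at hav
    rw [List.nodup_cons] at hnd
    have hcd : c ≠ d := by
      intro e
      exact hnd.1 (by rw [e]; exact List.mem_cons_self)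
    have hfc : f ≠ c := by
      intro e
      exact hfl (by rw [e]; exact List.mem_cons_self)
    have hfd : f ≠ d := by
      intro e
      exact hfl (by rw [e]; exact List.mem_cons_of_mem _ List.mem_cons_self)
    have hc := hl c List.mem_cons_self
    have hd := hl d (List.mem_cons_of_mem _ List.mem_cons_self)
    refine ⟨crV_spec h hf hc hd hcd hfc hfd hav.1, ?_⟩
    exact codeB_avV h hf (d :: t) hnd.2 (fun i hi => hl i (List.mem_cons_of_mem _ hi))
      (fun hi => hfl (List.mem_cons_of_mem _ hi)) hav.2

theorem codeB_avE (h : Sorted S v w q) {a b : ℕ} (ha : a + 1 < S.card) (hb : b + 1 < S.card)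
    (hab : a ≠ b) :
    ∀ l : List ℕ, l.Nodup → (∀ i ∈ l, i + 1 < S.card) → a ∉ l → b ∉ l →
      avE (sgn q) a b l = true → AvoidE (q a) (q b) (l.map q)
  | [], _, _, _, _, _ => trivial
  | [_], _, _, _, _, _ => trivial
  | c :: d :: t, hnd, hl, hal, hbl, hav => by
    rw [avE, Bool.and_eq_true] at hav
    rw [List.nodup_cons] at hnd
    have hcd : c ≠ d := by
      intro e
      exact hnd.1 (by rw [e]; exact List.mem_cons_self)
    have hac : a ≠ c := by
      intro e
      exact hal (by rw [e]; exact List.mem_cons_self)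
    have had : a ≠ d := by
      intro e
      exact hal (by rw [e]; exact List.mem_cons_of_mem _ List.mem_cons_self)
    have hbc : b ≠ c := by
      intro e
      exact hbl (by rw [e]; exact List.mem_cons_self)
    have hbd : b ≠ d := by
      intro e
      exact hbl (by rw [e]; exact List.mem_cons_of_mem _ List.mem_cons_self)
    have hc := hl c List.mem_cons_self
    have hd := hl d (List.mem_cons_of_mem _ List.mem_cons_self)
    refine ⟨crE_spec h ha hb hc hd hab hcd hac had hbc hbd hav.1, ?_⟩
    exact codeB_avE h ha hb hab (d :: t) hnd.2 (fun i hi => hl i (List.mem_cons_of_mem _ hi))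
      (fun hi => hal (List.mem_cons_of_mem _ hi)) (fun hi => hbl (List.mem_cons_of_mem _ hi)) hav.2

theorem codeB_simE (h : Sorted S v w q) :
    ∀ l : List ℕ, l.Nodup → (∀ i ∈ l, i + 1 < S.card) → simE (sgn q) l = true →
      SimpleE (l.map q)
  | [], _, _, _ => trivial
  | [_], _, _, _ => trivial
  | [_, _], _, _, _ => trivial
  | a :: b :: c :: t, hnd, hl, hs => by
    rw [simE, Bool.and_eq_true] at hs
    have hnd' := hnd
    rw [List.nodup_cons, List.nodup_cons] at hnd'
    have ha := hl a List.mem_cons_self
    have hb := hl b (List.mem_cons_of_mem _ List.mem_cons_self)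
    have hab : a ≠ b := by
      intro e
      exact hnd'.1 (by rw [e]; exact List.mem_cons_self)
    refine ⟨?_, ?_⟩
    · exact codeB_avE h ha hb hab (c :: t) hnd'.2.2
        (fun i hi => hl i (List.mem_cons_of_mem _ (List.mem_cons_of_mem _ hi)))
        (fun hi => hnd'.1 (List.mem_cons_of_mem _ hi)) hnd'.2.1 hs.1
    · exact codeB_simE h (b :: c :: t) (List.nodup_cons.mp hnd).2
        (fun i hi => hl i (List.mem_cons_of_mem _ hi)) hs.2

theorem codeB_ltE (h : Sorted S v w q) :
    ∀ l : List ℕ, l.Nodup → (∀ i ∈ l, i + 1 < S.card) → leftT (l.map q) = ltE (sgn q) l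
  | [], _, _ => rfl
  | [_], _, _ => rfl
  | [_, _], _, _ => rfl
  | a :: b :: c :: t, hnd, hl => by
    have ih := codeB_ltE h (b :: c :: t) (List.nodup_cons.mp hnd).2
      (fun i hi => hl i (List.mem_cons_of_mem _ hi))
    have hnd' := hnd
    rw [List.nodup_cons, List.nodup_cons] at hnd'
    have ha := hl a List.mem_cons_self
    have hb := hl b (List.mem_cons_of_mem _ List.mem_cons_self)
    have hc := hl c (List.mem_cons_of_mem _ (List.mem_cons_of_mem _ List.mem_cons_self))
    have hab : a ≠ b := by
      intro e
      exact hnd'.1 (by rw [e]; exact List.mem_cons_self)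
    have hac : a ≠ c := by
      intro e
      exact hnd'.1 (by rw [e]; exact List.mem_cons_of_mem _ List.mem_cons_self)
    have hbc : b ≠ c := by
      intro e
      exact hnd'.2.1 (by rw [e]; exact List.mem_cons_self)
    have h1 := sg_eq h ha hb hc hab hbc hac
    rw [ltE, ← ih]
    simp only [List.map_cons, leftT, h1]

/-- **A path given by indices.** -/
theorem TP_of_code {S : Finset (ℝ × ℝ)} {v w : ℝ × ℝ} {q : ℕ → ℝ × ℝ} (h : Sorted S v w q)
    (l : List ℕ) (hnd : l.Nodup) (hl : ∀ i, i ∈ l ↔ i + 1 < S.card)
    (hlast : l.getLast? = some 0) (hs : simP (sgn q) l = true) :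
    TP S v w (ltP (sgn q) l) := by
  have hl' : ∀ i ∈ l, i + 1 < S.card := fun i hi => (hl i).mp hi
  refine ⟨v :: l.map q, ?_, ?_, rfl, ?_, ?_, ?_⟩
  · rw [List.nodup_cons]
    refine ⟨?_, ?_⟩
    · rw [List.mem_map]
      rintro ⟨i, hi, e⟩
      exact (h.mem i (hl' i hi)).2 e
    · exact hnd.map_on fun x hx y hy e => h.inj (hl' x hx) (hl' y hy) e
  · intro x
    rw [List.mem_cons, List.mem_map]
    constructor
    · rintro (rfl | ⟨i, hi, rfl⟩)
      · exact h.inst.v_mem
      · exact (h.mem i (hl' i hi)).1
    · intro hx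
      by_cases hxv : x = v
      · exact Or.inl hxv
      · obtain ⟨i, hi, e⟩ := h.surj x hx hxv
        exact Or.inr ⟨i, (hl i).mpr hi, e⟩
  · rw [List.getLast?_cons, List.getLast?_map, hlast]
    simp [h.zero]
  · match l, hnd, hl', hs with
    | [], _, _, _ => trivial
    | [_], _, _, _ => trivial
    | f :: g :: t, hnd, hl', hs =>
      rw [simP, Bool.and_eq_true] at hs
      refine ⟨?_, codeB_simE h _ hnd hl' hs.2⟩
      exact codeB_avV h (hl' f List.mem_cons_self) (g :: t) (List.nodup_cons.mp hnd).2
        (fun i hi => hl' i (List.mem_cons_of_mem _ hi)) (List.nodup_cons.mp hnd).1 hs.1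
  · match l, hnd, hl' with
    | [], _, _ => exact le_refl _
    | [_], _, _ => exact le_refl _
    | f :: g :: t, hnd, hl' =>
      have h1 := codeB_ltE h _ hnd hl'
      have hf := hl' f List.mem_cons_self
      have hg := hl' g (List.mem_cons_of_mem _ List.mem_cons_self)
      have hfg : f ≠ g := by
        intro e
        exact (List.nodup_cons.mp hnd).1 (by rw [e]; exact List.mem_cons_self)
      have h2 : 0 < cross v (q f) (q g) ↔ f < g := by
        constructor
        · intro h3
          by_contra h4
          have h5 : g < f := by omega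
          have h6 := h.pos g f h5 hf
          rw [codeA_swap] at h6
          linarith
        · intro h3
          exact h.pos f g h3 hg
      rw [ltP, ← h1]
      simp only [List.map_cons, leftT, h2]
      exact le_refl _

end Pool.Agent.Lib.MP_9bb24e_co
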