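import Pool.Agent.Lib.MP_9bb24e_co.U.Hull

/-!
# Module CutA: cuts through an apex
Proof. Every point of `S` different from `v, w, s` lies in exactly one of `sideV, sideW, cone`
(general position, apex). Coordinates at `s`: for a point `p` put `α p = cross v s p` and
`β p = cross s w p` (affine functionals, both zero at `s`, `α v = 0`, `β w = 0`, `β v < 0`,
`α w < 0`; indeed `β v = cross s w v = cross v s w = - cross v w s < 0` and
`α w = cross v s w < 0`). `sideV`: `α > 0 > β`; `sideW`: `α < 0 < β`; cone: both positive. On the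
cone the ratio `β / α` is injective (two points with the same ratio are collinear with `s`). For
`λ > 0` not equal to one of these ratios the functional `φ = β - λ α` is negative on `v`, on
`sideV` and on the points of the cone with ratio `< λ`, positive on `w`, on `sideW` and on the
points of the cone with ratio `> λ`. `S1 = {φ < 0} ∪ {s}`, `S2 = {φ > 0} ∪ {s}`; choose `λ` so
that exactly `j - card sideV` points of the cone have ratio `< λ` (order the ratios).
`Inst S1 v s`: all points of `S1` other than `v, s` have `α > 0`; `Inst S2 s w`: `β > 0`.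
-/

set_option autoImplicit false

namespace Pool.Agent.Lib.MP_9bb24e_co

open Finset

theorem CutA_vsv (v s : ℝ × ℝ) : cross v s v = 0 := by unfold cross; ring

theorem CutA_vss (v s : ℝ × ℝ) : cross v s s = 0 := by unfold cross; ring

theorem CutA_sww (s w : ℝ × ℝ) : cross s w w = 0 := by unfold cross; ring

theorem CutA_sws (s w : ℝ × ℝ) : cross s w s = 0 := by unfold cross; ring

theorem CutA_vsw {S : Finset (ℝ × ℝ)} {v w s : ℝ × ℝ} (h : Inst S v w) (hs : Apex S v w s) :
    cross v s w < 0 := by
  have h1 := h.left s hs.1 hs.2.1 hs.2.2.1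
  have h2 : cross v s w = - cross v w s := by unfold cross; ring
  linarith

theorem CutA_swv {S : Finset (ℝ × ℝ)} {v w s : ℝ × ℝ} (h : Inst S v w) (hs : Apex S v w s) :
    cross s w v < 0 := by
  have h1 := h.left s hs.1 hs.2.1 hs.2.2.1
  have h2 : cross s w v = - cross v w s := by unfold cross; ring
  linarith

theorem CutA_alpha {S : Finset (ℝ × ℝ)} {v w s : ℝ × ℝ} (h : Inst S v w) (hs : Apex S v w s)
    {p : ℝ × ℝ} (hp : p ∈ S) (hpv : p ≠ v) (hps : p ≠ s) : cross v s p ≠ 0 :=
  cross_ne_zero_of_genPos h.gp h.v_mem hs.1 hp (Ne.symm hs.2.1) (Ne.symm hps) (Ne.symm hpv)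

theorem CutA_beta {S : Finset (ℝ × ℝ)} {v w s : ℝ × ℝ} (h : Inst S v w) (hs : Apex S v w s)
    {p : ℝ × ℝ} (hp : p ∈ S) (hpw : p ≠ w) (hps : p ≠ s) : cross s w p ≠ 0 :=
  cross_ne_zero_of_genPos h.gp hs.1 h.w_mem hp hs.2.2.1 (Ne.symm hpw) (Ne.symm hps)

theorem CutA_mem_sideV {S : Finset (ℝ × ℝ)} {v w s p : ℝ × ℝ} :
    p ∈ sideV S v w s ↔ p ∈ S ∧ 0 < cross v s p ∧ cross s w p < 0 := by
  unfold sideV
  rw [mem_filter]

theorem CutA_mem_sideW {S : Finset (ℝ × ℝ)} {v w s p : ℝ × ℝ} :
    p ∈ sideW S v w s ↔ p ∈ S ∧ cross v s p < 0 ∧ 0 < cross s w p := by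
  unfold sideW
  rw [mem_filter]

theorem CutA_mem_cone {S : Finset (ℝ × ℝ)} {v w s p : ℝ × ℝ} :
    p ∈ cone S v w s ↔ p ∈ S ∧ 0 < cross v s p ∧ 0 < cross s w p := by
  unfold cone
  rw [mem_filter]

theorem card_sides {S : Finset (ℝ × ℝ)} {v w s : ℝ × ℝ} (h : Inst S v w) (hs : Apex S v w s) :
    (sideV S v w s).card + (sideW S v w s).card + (cone S v w s).card + 3 = S.card := by
  classical
  have hvs := hs.2.1
  have hws := hs.2.2.1
  have hT : ((S.erase v).erase w).erase s = (sideV S v w s ∪ sideW S v w s) ∪ cone S v w s := by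
    ext p
    simp only [mem_erase, mem_union, CutA_mem_sideV, CutA_mem_sideW, CutA_mem_cone]
    constructor
    · rintro ⟨hps, hpw, hpv, hp⟩
      have ha := CutA_alpha h hs hp hpv hps
      have hb := CutA_beta h hs hp hpw hps
      rcases hs.2.2.2 p hp hpv hpw hps with h1 | h1
      · rcases lt_or_gt_of_ne hb with h2 | h2
        · exact Or.inl (Or.inl ⟨hp, h1, h2⟩)
        · exact Or.inr ⟨hp, h1, h2⟩
      · rcases lt_or_gt_of_ne ha with h2 | h2
        · exact Or.inl (Or.inr ⟨hp, h2, h1⟩)
        · exact Or.inr ⟨hp, h2, h1⟩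
    · have hv0 := CutA_vsv v s
      have hs0 := CutA_vss v s
      have hw0 := CutA_sww s w
      rintro ((⟨hp, h1, h2⟩ | ⟨hp, h1, h2⟩) | ⟨hp, h1, h2⟩)
      · refine ⟨?_, ?_, ?_, hp⟩
        · rintro rfl; linarith
        · rintro rfl; linarith
        · rintro rfl; linarith
      · refine ⟨?_, ?_, ?_, hp⟩
        · rintro rfl; linarith
        · rintro rfl; linarith
        · rintro rfl; linarith
      · refine ⟨?_, ?_, ?_, hp⟩
        · rintro rfl; linarith
        · rintro rfl; linarith
        · rintro rfl; linarith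
  have hc1 : ((S.erase v).erase w).erase s ⊆ S :=
    (erase_subset _ _).trans ((erase_subset _ _).trans (erase_subset _ _))
  have m1 : w ∈ S.erase v := mem_erase.2 ⟨Ne.symm h.ne, h.w_mem⟩
  have m2 : s ∈ (S.erase v).erase w := mem_erase.2 ⟨hws, mem_erase.2 ⟨hvs, hs.1⟩⟩
  have c1 := card_erase_add_one h.v_mem
  have c2 := card_erase_add_one m1
  have c3 := card_erase_add_one m2
  have d1 : Disjoint (sideV S v w s) (sideW S v w s) := by
    rw [disjoint_left]
    intro p hp hp'
    rw [CutA_mem_sideV] at hp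
    rw [CutA_mem_sideW] at hp'
    linarith [hp.2.1, hp'.2.1]
  have d2 : Disjoint (sideV S v w s ∪ sideW S v w s) (cone S v w s) := by
    rw [disjoint_left]
    intro p hp hp'
    rw [mem_union, CutA_mem_sideV, CutA_mem_sideW] at hp
    rw [CutA_mem_cone] at hp'
    rcases hp with hp | hp
    · linarith [hp.2.2, hp'.2.2]
    · linarith [hp.2.1, hp'.2.1]
  have c4 : (((S.erase v).erase w).erase s).card =
      (sideV S v w s).card + (sideW S v w s).card + (cone S v w s).card := by
    rw [hT, card_union_of_disjoint d2, card_union_of_disjoint d1]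
  omega

/-- The cut with threshold `lam` for the ratio of the two cone coordinates. -/
theorem split_of_ratio {S : Finset (ℝ × ℝ)} {v w s : ℝ × ℝ} (h : Inst S v w)
    (hs : Apex S v w s) (lam : ℝ) (hl : 0 < lam)
    (hne : ∀ p ∈ cone S v w s, cross s w p ≠ lam * cross v s p)
    (S1 S2 : Finset (ℝ × ℝ))
    (h1 : ∀ p, p ∈ S1 ↔ p ∈ S ∧ (p = s ∨ cross s w p < lam * cross v s p))
    (h2 : ∀ p, p ∈ S2 ↔ p ∈ S ∧ (p = s ∨ lam * cross v s p < cross s w p)) :
    Split S S1 S2 v w s := by
  have hvs := hs.2.1
  have hws := hs.2.2.1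
  have hvsw := CutA_vsw h hs
  have hswv := CutA_swv h hs
  have hv0 := CutA_vsv v s
  have hw0 := CutA_sww s w
  have hlw : lam * cross v s w < 0 := mul_neg_of_pos_of_neg hl hvsw
  refine ⟨h, ⟨?_, ?_, ?_, Ne.symm hvs, ?_⟩, ⟨?_, ?_, ?_, hws, ?_⟩, ?_, ?_, ?_⟩
  · intro a ha b hb c hc
    exact h.gp a ((h1 a).1 ha).1 b ((h1 b).1 hb).1 c ((h1 c).1 hc).1
  · rw [h1]
    refine ⟨h.v_mem, Or.inr ?_⟩
    rw [hv0, mul_zero]
    exact hswv
  · rw [h1]
    exact ⟨hs.1, Or.inl rfl⟩
  · intro p hp hpv hps
    rw [h1] at hp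
    obtain ⟨hpS, hp | hp⟩ := hp
    · exact absurd hp hps
    · by_cases hpw : p = w
      · subst hpw
        rw [hw0] at hp
        linarith
      · rcases hs.2.2.2 p hpS hpv hpw hps with h3 | h3
        · exact h3
        · have h4 : 0 < lam * cross v s p := lt_trans h3 hp
          exact (mul_pos_iff_of_pos_left hl).1 h4
  · intro a ha b hb c hc
    exact h.gp a ((h2 a).1 ha).1 b ((h2 b).1 hb).1 c ((h2 c).1 hc).1
  · rw [h2]
    exact ⟨hs.1, Or.inl rfl⟩
  · rw [h2]
    refine ⟨h.w_mem, Or.inr ?_⟩
    rw [hw0]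
    exact hlw
  · intro p hp hps hpw
    rw [h2] at hp
    obtain ⟨hpS, hp | hp⟩ := hp
    · exact absurd hp hps
    · by_cases hpv : p = v
      · subst hpv
        rw [hv0, mul_zero] at hp
        linarith
      · rcases hs.2.2.2 p hpS hpv hpw hps with h3 | h3
        · have h4 : 0 < lam * cross v s p := mul_pos hl h3
          linarith
        · exact h3
  · intro p
    rw [h1, h2]
    constructor
    · intro hp
      by_cases hps : p = s
      · exact Or.inl ⟨hp, Or.inl hps⟩
      · rcases lt_trichotomy (cross s w p) (lam * cross v s p) with h3 | h3 | h3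
        · exact Or.inl ⟨hp, Or.inr h3⟩
        · exfalso
          by_cases hpv : p = v
          · subst hpv
            rw [hv0, mul_zero] at h3
            linarith
          · by_cases hpw : p = w
            · subst hpw
              rw [hw0] at h3
              linarith
            · rcases hs.2.2.2 p hp hpv hpw hps with h4 | h4
              · refine hne p ?_ h3
                rw [CutA_mem_cone]
                refine ⟨hp, h4, ?_⟩
                rw [h3]
                exact mul_pos hl h4
              · refine hne p ?_ h3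
                rw [CutA_mem_cone]
                refine ⟨hp, ?_, h4⟩
                rw [h3] at h4
                exact (mul_pos_iff_of_pos_left hl).1 h4
        · exact Or.inr ⟨hp, Or.inr h3⟩
    · rintro (⟨hp, -⟩ | ⟨hp, -⟩)
      · exact hp
      · exact hp
  · intro p hp1 hp2
    rw [h1] at hp1
    rw [h2] at hp2
    by_contra hps
    have h3 := hp1.2.resolve_left hps
    have h4 := hp2.2.resolve_left hps
    linarith
  · have key : ∀ p : ℝ × ℝ, (-(w.2 - s.2) + lam * (s.2 - v.2)) * p.1 +
        ((w.1 - s.1) - lam * (s.1 - v.1)) * p.2 -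
        ((-(w.2 - s.2) + lam * (s.2 - v.2)) * s.1 +
        ((w.1 - s.1) - lam * (s.1 - v.1)) * s.2) = cross s w p - lam * cross v s p := by
      intro p
      unfold cross
      ring
    refine ⟨-(w.2 - s.2) + lam * (s.2 - v.2), (w.1 - s.1) - lam * (s.1 - v.1), ?_, ?_⟩
    · intro p hp hps
      have h3 := ((h1 p).1 hp).2.resolve_left hps
      have h4 := key p
      linarith
    · intro p hp hps
      have h3 := ((h2 p).1 hp).2.resolve_left hps
      have h4 := key p
      linarith

theorem CutA_gap (A : Finset ℝ) (x : ℝ) : ∃ y, x < y ∧ ∀ a ∈ A, x < a → y < a := by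
  by_cases hne : (A.filter fun a => x < a).Nonempty
  · obtain ⟨m, hm, hmin⟩ := exists_min_image _ id hne
    rw [mem_filter] at hm
    refine ⟨(x + m) / 2, by linarith [hm.2], fun a ha hxa => ?_⟩
    have h1 := hmin a (mem_filter.2 ⟨ha, hxa⟩)
    simp only [id] at h1
    linarith [hm.2]
  · refine ⟨x + 1, by linarith, fun a ha hxa => ?_⟩
    exact absurd ⟨a, mem_filter.2 ⟨ha, hxa⟩⟩ hne

open Classical in
theorem CutA_threshold {ι : Type} (C : Finset ι) (f : ι → ℝ) (hpos : ∀ p ∈ C, 0 < f p)
    (hinj : ∀ p ∈ C, ∀ q ∈ C, f p = f q → p = q) (k : ℕ) (hk : k ≤ C.card) :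
    ∃ lam : ℝ, 0 < lam ∧ (∀ p ∈ C, f p ≠ lam) ∧ (C.filter fun p => f p < lam).card = k := by
  induction k with
  | zero =>
    obtain ⟨y, hy, hy'⟩ := CutA_gap (C.image f) 0
    have h1 : ∀ p ∈ C, y < f p := fun p hp => hy' (f p) (mem_image_of_mem _ hp) (hpos p hp)
    refine ⟨y, hy, fun p hp => ne_of_gt (h1 p hp), ?_⟩
    rw [card_eq_zero, filter_eq_empty_iff]
    intro p hp
    exact not_lt.2 (h1 p hp).le
  | succ k ih =>
    obtain ⟨lam, hl, hne, hc⟩ := ih (by omega)
    have hne2 : (C.filter fun p => lam < f p).Nonempty := by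
      by_contra hemp
      rw [not_nonempty_iff_eq_empty, filter_eq_empty_iff] at hemp
      have h1 : C.filter (fun p => f p < lam) = C := by
        rw [filter_eq_self]
        intro p hp
        exact lt_of_le_of_ne (not_lt.1 (hemp hp)) (hne p hp)
      rw [h1] at hc
      omega
    obtain ⟨p0, hp0, hmin⟩ := exists_min_image _ f hne2
    rw [mem_filter] at hp0
    obtain ⟨y, hy, hy'⟩ := CutA_gap (C.image f) (f p0)
    have h1 : ∀ p ∈ C, f p0 < f p → y < f p := fun p hp hp' =>
      hy' (f p) (mem_image_of_mem _ hp) hp'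
    refine ⟨y, by linarith [hp0.2], ?_, ?_⟩
    · intro p hp hpy
      have h2 := h1 p hp (by rw [hpy]; exact hy)
      linarith
    · have h2 : C.filter (fun p => f p < y) = insert p0 (C.filter fun p => f p < lam) := by
        ext p
        rw [mem_insert, mem_filter, mem_filter]
        constructor
        · rintro ⟨hp, hpy⟩
          by_cases hlt : f p < lam
          · exact Or.inr ⟨hp, hlt⟩
          · left
            have h3 : lam < f p := lt_of_le_of_ne (not_lt.1 hlt) (Ne.symm (hne p hp))
            have h4 := hmin p (mem_filter.2 ⟨hp, h3⟩)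
            refine hinj p hp p0 hp0.1 (le_antisymm ?_ h4)
            by_contra h5
            have h6 := h1 p hp (not_le.1 h5)
            linarith
        · rintro (rfl | ⟨hp, hplt⟩)
          · exact ⟨hp0.1, hy⟩
          · exact ⟨hp, by linarith [hp0.2]⟩
      rw [h2, card_insert_of_notMem, hc]
      rw [mem_filter]
      intro h3
      linarith [h3.2, hp0.2]

/-- **Cuts of every size through an apex.** -/
theorem exists_split {S : Finset (ℝ × ℝ)} {v w s : ℝ × ℝ} (h : Inst S v w)
    (hs : Apex S v w s) (j : ℕ) (hj : (sideV S v w s).card ≤ j)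
    (hj' : j ≤ (sideV S v w s).card + (cone S v w s).card) :
    ∃ S1 S2, Split S S1 S2 v w s ∧ S1.card = j + 2 := by
  classical
  have hvs := hs.2.1
  have hws := hs.2.2.1
  have hvsw := CutA_vsw h hs
  have hswv := CutA_swv h hs
  have hv0 := CutA_vsv v s
  have hs0 := CutA_vss v s
  have hw0 := CutA_sww s w
  have hcone : ∀ p ∈ cone S v w s, p ∈ S ∧ 0 < cross v s p ∧ 0 < cross s w p ∧ p ≠ s ∧ p ≠ v ∧
      p ≠ w := by
    intro p hp
    rw [CutA_mem_cone] at hp
    refine ⟨hp.1, hp.2.1, hp.2.2, ?_, ?_, ?_⟩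
    · rintro rfl; linarith [hp.2.1]
    · rintro rfl; linarith [hp.2.1]
    · rintro rfl; linarith [hp.2.2]
  obtain ⟨lam, hl, hne, hc⟩ := CutA_threshold (cone S v w s)
    (fun p => cross s w p / cross v s p)
    (fun p hp => div_pos (hcone p hp).2.2.1 (hcone p hp).2.1)
    (by
      intro p hp q hq hpq
      by_contra hne
      obtain ⟨p1, p2, p3, p4, p5, p6⟩ := hcone p hp
      obtain ⟨q1, q2, q3, q4, q5, q6⟩ := hcone q hq
      have h1 := cross_ne_zero_of_genPos h.gp hs.1 p1 q1 (Ne.symm p4) hne (Ne.symm q4)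
      rw [div_eq_div_iff p2.ne' q2.ne'] at hpq
      have h2 : cross v s w * cross s p q =
          cross s w q * cross v s p - cross s w p * cross v s q := by
        unfold cross
        ring
      rw [hpq, sub_self] at h2
      rcases mul_eq_zero.1 h2 with h3 | h3
      · linarith
      · exact h1 h3)
    (j - (sideV S v w s).card) (by omega)
  have hne' : ∀ p ∈ cone S v w s, cross s w p ≠ lam * cross v s p := by
    intro p hp heq
    refine hne p hp ?_
    rw [heq, mul_div_assoc, div_self (hcone p hp).2.1.ne', mul_one]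
  refine ⟨S.filter (fun p => p = s ∨ cross s w p < lam * cross v s p),
    S.filter (fun p => p = s ∨ lam * cross v s p < cross s w p),
    split_of_ratio h hs lam hl hne' _ _ (fun p => mem_filter) (fun p => mem_filter), ?_⟩
  have hset : S.filter (fun p => p = s ∨ cross s w p < lam * cross v s p) =
      insert v (insert s (sideV S v w s ∪
        (cone S v w s).filter fun p => cross s w p / cross v s p < lam)) := by
    ext p
    rw [mem_filter, mem_insert, mem_insert, mem_union, CutA_mem_sideV, mem_filter, CutA_mem_cone]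
    constructor
    · rintro ⟨hp, hp' | hp'⟩
      · exact Or.inr (Or.inl hp')
      · by_cases hpv : p = v
        · exact Or.inl hpv
        · by_cases hps : p = s
          · exact Or.inr (Or.inl hps)
          · right; right
            have hpw : p ≠ w := by
              rintro rfl
              rw [hw0] at hp'
              have := mul_neg_of_pos_of_neg hl hvsw
              linarith
            have hb := CutA_beta h hs hp hpw hps
            have ha : 0 < cross v s p := by
              rcases hs.2.2.2 p hp hpv hpw hps with h3 | h3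
              · exact h3
              · exact (mul_pos_iff_of_pos_left hl).1 (lt_trans h3 hp')
            rcases lt_or_gt_of_ne hb with h3 | h3
            · exact Or.inl ⟨hp, ha, h3⟩
            · exact Or.inr ⟨⟨hp, ha, h3⟩, (div_lt_iff₀ ha).2 hp'⟩
    · rintro (rfl | rfl | ⟨hp, h3, h4⟩ | ⟨⟨hp, h3, h4⟩, h5⟩)
      · refine ⟨h.v_mem, Or.inr ?_⟩
        rw [hv0, mul_zero]
        exact hswv
      · exact ⟨hs.1, Or.inl rfl⟩
      · refine ⟨hp, Or.inr ?_⟩
        have := mul_pos hl h3
        linarith
      · exact ⟨hp, Or.inr ((div_lt_iff₀ h3).1 h5)⟩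
  rw [hset]
  have hs1 : s ∉ sideV S v w s ∪
      (cone S v w s).filter fun p => cross s w p / cross v s p < lam := by
    rw [mem_union, CutA_mem_sideV, mem_filter, CutA_mem_cone]
    rintro (h3 | h3)
    · linarith [h3.2.1]
    · linarith [h3.1.2.1]
  have hv1 : v ∉ insert s (sideV S v w s ∪
      (cone S v w s).filter fun p => cross s w p / cross v s p < lam) := by
    rw [mem_insert, mem_union, CutA_mem_sideV, mem_filter, CutA_mem_cone]
    rintro (h3 | h3 | h3)
    · exact hvs h3.symm
    · linarith [h3.2.1]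
    · linarith [h3.1.2.1]
  rw [card_insert_of_notMem hv1, card_insert_of_notMem hs1, card_union_of_disjoint, hc]
  · omega
  · rw [disjoint_left]
    intro p hp hp'
    rw [CutA_mem_sideV] at hp
    rw [mem_filter, CutA_mem_cone] at hp'
    linarith [hp.2.2, hp'.1.2.2]

end Pool.Agent.Lib.MP_9bb24e_co
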