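import Pool.Agent.Lib.MP_9bb24e_co.U.Hull

/-!
# Module CutB: choice of the apex
Think of `v` as the direction south and `w` as the direction east: for points `p, q` of `S`
different from `v, w`, `p` is to the left of `q` iff `0 < cross v q p`, and `p` is lower than `q`
iff `0 < cross w q p` (two strict linear orders on `S` without `v, w`: all these points are on the
left of the line `v w`; transitivity from the identity
`cross v w a * cross v b c - cross v w b * cross v a c + cross v w c * cross v a b = 0` and the same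
with `v, w` exchanged). `s` is an apex iff no other point is lower than `s` and to the right of
`s`. Proof of `exists_apex`: among the apexes `s` with `(sideV S v w s).card ≤ j` (the lowest point
is one of them, with empty `sideV`) take the highest one. If the upper bound failed, `sideW` would
be nonempty (`card_sides` style count); let `c'` be the lowest point of `sideW`. It is an apex: a
point lower and to the right of `c'` is to the right of `s`, so not lower than `s` (apex), so in
`sideW` and lower than `c'`. All points lower than `c'` are to the left of it, and they lie in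
`sideV ∪ cone ∪ {s}` of `s`, so the `sideV` of `c'` has at most `card sideV + card cone + 1 ≤ j`
points, and `c'` is higher than `s`: contradiction.
-/

set_option autoImplicit false

namespace Pool.Agent.Lib.MP_9bb24e_co

open Finset

/-- Horizontal coordinate (smaller = more to the left). -/
noncomputable def CutB_X (v w p : ℝ × ℝ) : ℝ :=
  ((p.1 - v.1) * (w.1 - v.1) + (p.2 - v.2) * (w.2 - v.2)) / cross v w p

/-- Vertical coordinate (smaller = lower). -/
noncomputable def CutB_Y (v w p : ℝ × ℝ) : ℝ :=
  -((p.1 - w.1) * (v.1 - w.1) + (p.2 - w.2) * (v.2 - w.2)) / cross v w p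

theorem CutB_pos {v w : ℝ × ℝ} (h : v ≠ w) :
    0 < (w.1 - v.1) ^ 2 + (w.2 - v.2) ^ 2 := by
  by_contra hcon
  push Not at hcon
  have h1 : (w.1 - v.1) ^ 2 = 0 := by nlinarith [sq_nonneg (w.1 - v.1), sq_nonneg (w.2 - v.2)]
  have h2 : (w.2 - v.2) ^ 2 = 0 := by nlinarith [sq_nonneg (w.1 - v.1), sq_nonneg (w.2 - v.2)]
  have h3 : w.1 - v.1 = 0 := by simpa using h1
  have h4 : w.2 - v.2 = 0 := by simpa using h2
  exact h (Prod.ext (by linarith) (by linarith))

theorem CutB_left {v w p q : ℝ × ℝ} (h : v ≠ w) (hp : 0 < cross v w p) (hq : 0 < cross v w q) :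
    CutB_X v w p < CutB_X v w q ↔ 0 < cross v q p := by
  unfold CutB_X
  rw [div_lt_div_iff₀ hp hq]
  have h0 := CutB_pos h
  have h1 : ((q.1 - v.1) * (w.1 - v.1) + (q.2 - v.2) * (w.2 - v.2)) * cross v w p -
      ((p.1 - v.1) * (w.1 - v.1) + (p.2 - v.2) * (w.2 - v.2)) * cross v w q =
      ((w.1 - v.1) ^ 2 + (w.2 - v.2) ^ 2) * cross v q p := by
    unfold cross
    ring
  constructor
  · intro h2
    by_contra h3
    push Not at h3
    have h4 := mul_nonpos_of_nonneg_of_nonpos h0.le h3
    linarith
  · intro h2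
    have h4 := mul_pos h0 h2
    linarith

theorem CutB_low {v w p q : ℝ × ℝ} (h : v ≠ w) (hp : 0 < cross v w p) (hq : 0 < cross v w q) :
    CutB_Y v w p < CutB_Y v w q ↔ 0 < cross w q p := by
  unfold CutB_Y
  rw [div_lt_div_iff₀ hp hq]
  have h0 := CutB_pos h
  have h1 : -((q.1 - w.1) * (v.1 - w.1) + (q.2 - w.2) * (v.2 - w.2)) * cross v w p -
      -((p.1 - w.1) * (v.1 - w.1) + (p.2 - w.2) * (v.2 - w.2)) * cross v w q =
      ((w.1 - v.1) ^ 2 + (w.2 - v.2) ^ 2) * cross w q p := by
    unfold cross
    ring
  constructor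
  · intro h2
    by_contra h3
    push Not at h3
    have h4 := mul_nonpos_of_nonneg_of_nonpos h0.le h3
    linarith
  · intro h2
    have h4 := mul_pos h0 h2
    linarith

theorem CutB_down (T : Finset (ℝ × ℝ)) (Y : ℝ × ℝ → ℝ) (k : ℕ) (hk : k ≤ T.card) :
    ∃ U ⊆ T, U.card = k ∧ ∀ p ∈ U, ∀ q ∈ T, Y q < Y p → q ∈ U := by
  classical
  induction k with
  | zero => exact ⟨∅, Finset.empty_subset _, rfl, fun p hp => absurd hp (Finset.notMem_empty p)⟩
  | succ k ih =>
    obtain ⟨U, hU, hc, hd⟩ := ih (by omega)
    have hne : (T \ U).Nonempty := by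
      rw [← Finset.card_pos, Finset.card_sdiff_of_subset hU]
      omega
    obtain ⟨p0, hp0, hmin⟩ := Finset.exists_min_image (T \ U) Y hne
    rw [Finset.mem_sdiff] at hp0
    refine ⟨insert p0 U, ?_, ?_, ?_⟩
    · intro x hx
      rcases Finset.mem_insert.mp hx with rfl | hx
      · exact hp0.1
      · exact hU hx
    · rw [Finset.card_insert_of_notMem hp0.2, hc]
    · intro p hp q hq hqp
      rcases Finset.mem_insert.mp hp with rfl | hp
      · by_contra hcon
        have h1 : q ∉ U := fun h => hcon (Finset.mem_insert_of_mem h)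
        have h2 := hmin q (Finset.mem_sdiff.mpr ⟨hq, h1⟩)
        linarith
      · exact Finset.mem_insert_of_mem (hd p hp q hq hqp)

theorem CutB_core {S : Finset (ℝ × ℝ)} {v w : ℝ × ℝ} (h : Inst S v w) (j : ℕ)
    (hj : j + 3 ≤ S.card) : ∃ s, Apex S v w s ∧ (sideV S v w s).card ≤ j ∧
      j ≤ (sideV S v w s).card + (cone S v w s).card := by
  classical
  set T : Finset (ℝ × ℝ) := (S.erase v).erase w with hT
  have hTc : T.card + 2 = S.card := by
    rw [hT, Finset.card_erase_of_mem (Finset.mem_erase.mpr ⟨h.ne.symm, h.w_mem⟩),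
      Finset.card_erase_of_mem h.v_mem]
    omega
  have hTm : ∀ p, p ∈ T ↔ p ∈ S ∧ p ≠ v ∧ p ≠ w := by
    intro p
    rw [hT, Finset.mem_erase, Finset.mem_erase]
    tauto
  have hpos : ∀ p ∈ T, 0 < cross v w p := fun p hp =>
    h.left p ((hTm p).mp hp).1 ((hTm p).mp hp).2.1 ((hTm p).mp hp).2.2
  have hX : ∀ p ∈ T, ∀ q ∈ T, p ≠ q → CutB_X v w p < CutB_X v w q ∨
      CutB_X v w q < CutB_X v w p := by
    intro p hp q hq hpq
    rw [CutB_left h.ne (hpos p hp) (hpos q hq), CutB_left h.ne (hpos q hq) (hpos p hp)]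
    have h1 : cross v q p ≠ 0 := cross_ne_zero_of_genPos h.gp h.v_mem ((hTm q).mp hq).1
      ((hTm p).mp hp).1 (Ne.symm ((hTm q).mp hq).2.1) (Ne.symm hpq) (Ne.symm ((hTm p).mp hp).2.1)
    have h2 : cross v p q = - cross v q p := by
      unfold cross
      ring
    rw [h2]
    rcases lt_or_gt_of_ne h1 with h3 | h3
    · right
      linarith
    · left
      exact h3
  have hY : ∀ p ∈ T, ∀ q ∈ T, p ≠ q → CutB_Y v w p < CutB_Y v w q ∨
      CutB_Y v w q < CutB_Y v w p := by
    intro p hp q hq hpq
    rw [CutB_low h.ne (hpos p hp) (hpos q hq), CutB_low h.ne (hpos q hq) (hpos p hp)]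
    have h1 : cross w q p ≠ 0 := cross_ne_zero_of_genPos h.gp h.w_mem ((hTm q).mp hq).1
      ((hTm p).mp hp).1 (Ne.symm ((hTm q).mp hq).2.2) (Ne.symm hpq) (Ne.symm ((hTm p).mp hp).2.2)
    have h2 : cross w p q = - cross w q p := by
      unfold cross
      ring
    rw [h2]
    rcases lt_or_gt_of_ne h1 with h3 | h3
    · right
      linarith
    · left
      exact h3
  obtain ⟨U, hUT, hUc, hUd⟩ := CutB_down T (CutB_Y v w) (j + 1) (by omega)
  obtain ⟨s, hsU, hmax⟩ := Finset.exists_max_image U (CutB_X v w)
    (Finset.card_pos.mp (by omega))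
  have hsT : s ∈ T := hUT hsU
  have hsS := (hTm s).mp hsT
  have hsw : ∀ p : ℝ × ℝ, cross s w p = - cross w s p := by
    intro p
    unfold cross
    ring
  have hsw2 : ∀ p : ℝ × ℝ, cross s w p = cross w p s := by
    intro p
    unfold cross
    ring
  have hXU : ∀ p ∈ U, p ≠ s → CutB_X v w p < CutB_X v w s := by
    intro p hp hps
    rcases hX p (hUT hp) s hsT hps with h1 | h1
    · exact h1
    · have := hmax p hp
      linarith
  refine ⟨s, ⟨hsS.1, hsS.2.1, hsS.2.2, ?_⟩, ?_, ?_⟩
  · intro p hp hpv hpw hps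
    have hpT : p ∈ T := (hTm p).mpr ⟨hp, hpv, hpw⟩
    by_cases hpU : p ∈ U
    · left
      exact (CutB_left h.ne (hpos p hpT) (hpos s hsT)).mp (hXU p hpU hps)
    · right
      rcases hY p hpT s hsT hps with h1 | h1
      · exact absurd (hUd s hsU p hpT h1) hpU
      · rw [hsw2]
        exact (CutB_low h.ne (hpos s hsT) (hpos p hpT)).mp h1
  · have h1 : sideV S v w s ⊆ U.erase s := by
      intro p hp
      unfold sideV at hp
      rw [Finset.mem_filter] at hp
      obtain ⟨hpS, hp1, hp2⟩ := hp
      have hpv : p ≠ v := by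
        rintro rfl
        have : cross p s p = 0 := by
          unfold cross
          ring
        linarith
      have hpw : p ≠ w := by
        rintro rfl
        have : cross s p p = 0 := by
          unfold cross
          ring
        linarith
      have hps : p ≠ s := by
        rintro rfl
        have : cross v p p = 0 := by
          unfold cross
          ring
        linarith
      have hpT : p ∈ T := (hTm p).mpr ⟨hpS, hpv, hpw⟩
      refine Finset.mem_erase.mpr ⟨hps, hUd s hsU p hpT ?_⟩
      rw [CutB_low h.ne (hpos p hpT) (hpos s hsT)]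
      have := hsw p
      linarith
    have h2 := Finset.card_le_card h1
    rw [Finset.card_erase_of_mem hsU, hUc] at h2
    omega
  · have h1 : U.erase s ⊆ sideV S v w s ∪ cone S v w s := by
      intro p hp
      obtain ⟨hps, hpU⟩ := Finset.mem_erase.mp hp
      have hpT := hUT hpU
      have hpS := ((hTm p).mp hpT).1
      have h2 := (CutB_left h.ne (hpos p hpT) (hpos s hsT)).mp (hXU p hpU hps)
      rw [Finset.mem_union]
      rcases hY p hpT s hsT hps with h3 | h3
      · left
        unfold sideV
        rw [Finset.mem_filter]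
        refine ⟨hpS, h2, ?_⟩
        rw [CutB_low h.ne (hpos p hpT) (hpos s hsT)] at h3
        rw [hsw]
        linarith
      · right
        unfold cone
        rw [Finset.mem_filter]
        refine ⟨hpS, h2, ?_⟩
        rw [CutB_low h.ne (hpos s hsT) (hpos p hpT)] at h3
        rw [hsw2]
        exact h3
    have h2 := Finset.card_le_card h1
    rw [Finset.card_erase_of_mem hsU, hUc] at h2
    have h3 := Finset.card_union_le (sideV S v w s) (cone S v w s)
    omega

/-- There is an apex with empty `sideV` (the lowest point). -/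
theorem exists_apex_zero {S : Finset (ℝ × ℝ)} {v w : ℝ × ℝ} (h : Inst S v w)
    (h3 : 3 ≤ S.card) : ∃ s, Apex S v w s ∧ sideV S v w s = ∅ := by
  obtain ⟨s, h1, h2, _⟩ := CutB_core h 0 (by omega)
  exact ⟨s, h1, Finset.card_eq_zero.mp (by omega)⟩

/-- **Choice of the apex.** -/
theorem exists_apex {S : Finset (ℝ × ℝ)} {v w : ℝ × ℝ} (h : Inst S v w) (j : ℕ)
    (hj : j + 3 ≤ S.card) : ∃ s, Apex S v w s ∧ (sideV S v w s).card ≤ j ∧
      j ≤ (sideV S v w s).card + (cone S v w s).card :=
  CutB_core h j hj

end Pool.Agent.Lib.MP_9bb24e_co
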