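import Pool.Agent.Lib.MP_9bb24e_co.U.Hull

/-!
# Module Enum: the points sorted around `v`, signotope relations
`exists_enum`: on the points of `S` other than `v` the relation `0 < cross v x y` is a strict linear
order with least element `w` (transitivity: all points other than `v, w` are on the left of the line
`v w`; identity
`cross v w a * cross v b c - cross v w b * cross v a c + cross v w c * cross v a b = 0`).
The relations: with `D x y z = cross x y z` and `a x y = cross v x y` one has, for any four points,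
`D i j k * a i l - D i j l * a i k + D i k l * a i j = 0`,
`D i j k * a j l - D i j l * a j k + D j k l * a i j = 0`,
`D i j k * a k l - D i k l * a j k + D j k l * a i k = 0`,
`D i j l * a k l - D i k l * a j l + D j k l * a i l = 0` (check the signs with `ring`).
-/

set_option autoImplicit false

namespace Pool.Agent.Lib.MP_9bb24e_co

open Finset

/-- The points of `S` other than `v` in the order around `v`, starting with `w`. -/
structure Sorted (S : Finset (ℝ × ℝ)) (v w : ℝ × ℝ) (q : ℕ → ℝ × ℝ) : Prop where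
  inst : Inst S v w
  zero : q 0 = w
  mem : ∀ i, i + 1 < S.card → q i ∈ S ∧ q i ≠ v
  surj : ∀ p ∈ S, p ≠ v → ∃ i, i + 1 < S.card ∧ q i = p
  pos : ∀ i j, i < j → j + 1 < S.card → 0 < cross v (q i) (q j)

theorem exists_enum {S : Finset (ℝ × ℝ)} {v w : ℝ × ℝ} (h : Inst S v w) :
    ∃ q, Sorted S v w q := by
  classical
  set key : ℝ × ℝ → ℝ := fun x =>
    -((x.1 - v.1) * (w.1 - v.1) + (x.2 - v.2) * (w.2 - v.2)) / cross v w x with hkey
  set T : Finset (ℝ × ℝ) := (S.erase v).erase w with hT
  have hTS : ∀ x ∈ T, x ∈ S ∧ x ≠ v ∧ x ≠ w := by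
    intro x hx
    rw [hT, Finset.mem_erase, Finset.mem_erase] at hx
    exact ⟨hx.2.2, hx.2.1, hx.1⟩
  have hu : 0 < (w.1 - v.1) ^ 2 + (w.2 - v.2) ^ 2 := by
    have h1 : w.1 - v.1 ≠ 0 ∨ w.2 - v.2 ≠ 0 := by
      by_contra hcon
      push Not at hcon
      exact h.ne (Prod.ext (by linarith [hcon.1]) (by linarith [hcon.2]))
    rcases h1 with h1 | h1 <;> positivity
  have hlt : ∀ x ∈ T, ∀ y ∈ T, (0 < cross v x y ↔ key x < key y) := by
    intro x hx y hy
    obtain ⟨hxS, hxv, hxw⟩ := hTS x hx
    obtain ⟨hyS, hyv, hyw⟩ := hTS y hy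
    have hcx := h.left x hxS hxv hxw
    have hcy := h.left y hyS hyv hyw
    have hid : cross v x y * ((w.1 - v.1) ^ 2 + (w.2 - v.2) ^ 2) =
        ((x.1 - v.1) * (w.1 - v.1) + (x.2 - v.2) * (w.2 - v.2)) * cross v w y -
        ((y.1 - v.1) * (w.1 - v.1) + (y.2 - v.2) * (w.2 - v.2)) * cross v w x := by
      simp only [cross]; ring
    simp only [hkey]
    rw [div_lt_div_iff₀ hcx hcy]
    constructor
    · intro h1
      have := mul_pos h1 hu
      linarith
    · intro h1
      by_contra h2
      have := mul_nonneg (neg_nonneg.2 (not_lt.1 h2)) hu.le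
      linarith
  have hinj : ∀ x ∈ T, ∀ y ∈ T, key x = key y → x = y := by
    intro x hx y hy hxy
    by_contra hne
    obtain ⟨hxS, hxv, hxw⟩ := hTS x hx
    obtain ⟨hyS, hyv, hyw⟩ := hTS y hy
    have h1 := cross_ne_zero_of_genPos h.gp h.v_mem hxS hyS hxv.symm hne hyv.symm
    have h2 : cross v y x = -cross v x y := by simp only [cross]; ring
    rcases lt_or_gt_of_ne h1 with h3 | h3
    · have h4 : 0 < cross v y x := by rw [h2]; linarith
      have := (hlt y hy x hx).1 h4
      linarith
    · have := (hlt x hx y hy).1 h3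
      linarith
  have hcard : (T.image key).card + 2 = S.card := by
    rw [Finset.card_image_of_injOn (fun x hx y hy e => hinj x hx y hy e), hT,
      Finset.card_erase_of_mem, Finset.card_erase_of_mem h.v_mem]
    · have : 1 < S.card := Finset.one_lt_card.2 ⟨v, h.v_mem, w, h.w_mem, h.ne⟩
      omega
    · rw [Finset.mem_erase]
      exact ⟨h.ne.symm, h.w_mem⟩
  set e := (T.image key).orderEmbOfFin rfl with he
  have hex : ∀ i : Fin (T.image key).card, ∃ x, x ∈ T ∧ key x = e i := by
    intro i
    have := Finset.orderEmbOfFin_mem (T.image key) rfl i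
    obtain ⟨x, hx, hxe⟩ := Finset.mem_image.1 this
    exact ⟨x, hx, hxe⟩
  choose p hpT hpk using hex
  set q : ℕ → ℝ × ℝ := fun n => match n with
    | 0 => w
    | i + 1 => if hi : i < (T.image key).card then p ⟨i, hi⟩ else w with hq
  have hq0 : q 0 = w := rfl
  have hqs : ∀ i (hi : i < (T.image key).card), q (i + 1) = p ⟨i, hi⟩ := by
    intro i hi
    simp only [hq, dif_pos hi]
  have hqT : ∀ i, i + 2 < S.card → q (i + 1) ∈ T := by
    intro i hi
    rw [hqs i (by omega)]
    exact hpT _
  refine ⟨q, h, hq0, ?_, ?_, ?_⟩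
  · intro i hi
    rcases i with _ | i
    · exact ⟨h.w_mem, h.ne.symm⟩
    · have := hTS _ (hqT i (by omega))
      exact ⟨this.1, this.2.1⟩
  · intro x hx hxv
    by_cases hxw : x = w
    · exact ⟨0, by omega, by rw [hq0, hxw]⟩
    · have hxT : x ∈ T := by
        rw [hT, Finset.mem_erase, Finset.mem_erase]
        exact ⟨hxw, hxv, hx⟩
      have h1 : key x ∈ Set.range e := by
        rw [he, Finset.range_orderEmbOfFin]
        exact Finset.mem_coe.2 (Finset.mem_image_of_mem _ hxT)
      obtain ⟨⟨i, hi⟩, hie⟩ := h1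
      refine ⟨i + 1, by omega, ?_⟩
      rw [hqs i hi]
      exact hinj _ (hpT _) _ hxT (by rw [hpk, hie])
  · intro i j hij hj
    rcases j with _ | j
    · omega
    rcases i with _ | i
    · have := hTS _ (hqT j (by omega))
      rw [hq0]
      exact h.left _ this.1 this.2.1 this.2.2
    · rw [hlt _ (hqT i (by omega)) _ (hqT j (by omega)), hqs i (by omega), hqs j (by omega),
        hpk, hpk]
      exact e.strictMono (Fin.mk_lt_mk.2 (by omega))

theorem Sorted.inj {S : Finset (ℝ × ℝ)} {v w : ℝ × ℝ} {q : ℕ → ℝ × ℝ} (h : Sorted S v w q)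
    {i j : ℕ} (hi : i + 1 < S.card) (hj : j + 1 < S.card) (hij : q i = q j) : i = j := by
  have h0 : ∀ p : ℝ × ℝ, cross v p p = 0 := fun p => by simp only [cross]; ring
  rcases lt_trichotomy i j with hlt | rfl | hlt
  · have := h.pos i j hlt hj
    rw [hij, h0] at this
    exact absurd this (lt_irrefl _)
  · rfl
  · have := h.pos j i hlt hi
    rw [hij, h0] at this
    exact absurd this (lt_irrefl _)

theorem Sorted.ne_zero {S : Finset (ℝ × ℝ)} {v w : ℝ × ℝ} {q : ℕ → ℝ × ℝ} (h : Sorted S v w q)
    {i j k : ℕ} (hi : i + 1 < S.card) (hj : j + 1 < S.card) (hk : k + 1 < S.card) (hij : i ≠ j)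
    (hjk : j ≠ k) (hik : i ≠ k) : cross (q i) (q j) (q k) ≠ 0 :=
  cross_ne_zero_of_genPos h.inst.gp (h.mem i hi).1 (h.mem j hj).1 (h.mem k hk).1
    (fun e => hij (h.inj hi hj e)) (fun e => hjk (h.inj hj hk e)) (fun e => hik (h.inj hi hk e))

/-- The signotope axioms: among the signs of `i j k`, `i j l`, `i k l`, `j k l` (in this order)
there is at most one change. `(x, y, z)` runs over the four triples of consecutive or skipped
positions; stated as: no pattern `+ - +` and no pattern `- + -`. -/
theorem Sorted.signotope {S : Finset (ℝ × ℝ)} {v w : ℝ × ℝ} {q : ℕ → ℝ × ℝ}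
    (h : Sorted S v w q) {i j k l : ℕ} (hij : i < j) (hjk : j < k) (hkl : k < l)
    (hl : l + 1 < S.card) :
    (0 < cross (q i) (q j) (q k) → 0 < cross (q i) (q k) (q l) → 0 < cross (q i) (q j) (q l)) ∧
    (cross (q i) (q j) (q k) < 0 → cross (q i) (q k) (q l) < 0 → cross (q i) (q j) (q l) < 0) ∧
    (0 < cross (q i) (q j) (q k) → 0 < cross (q j) (q k) (q l) → 0 < cross (q i) (q j) (q l)) ∧
    (cross (q i) (q j) (q k) < 0 → cross (q j) (q k) (q l) < 0 → cross (q i) (q j) (q l) < 0) ∧
    (0 < cross (q i) (q j) (q k) → 0 < cross (q j) (q k) (q l) → 0 < cross (q i) (q k) (q l)) ∧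
    (cross (q i) (q j) (q k) < 0 → cross (q j) (q k) (q l) < 0 → cross (q i) (q k) (q l) < 0) ∧
    (0 < cross (q i) (q j) (q l) → 0 < cross (q j) (q k) (q l) → 0 < cross (q i) (q k) (q l)) ∧
    (cross (q i) (q j) (q l) < 0 → cross (q j) (q k) (q l) < 0 → cross (q i) (q k) (q l) < 0) := by
  have aij := h.pos i j hij (by omega)
  have aik := h.pos i k (by omega) (by omega)
  have ail := h.pos i l (by omega) hl
  have ajk := h.pos j k hjk (by omega)
  have ajl := h.pos j l (by omega) hl
  have akl := h.pos k l hkl hl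
  have key : ∀ {x y z a b c : ℝ}, 0 < a → 0 < b → 0 < c → x * a - y * b + z * c = 0 →
      (0 < x → 0 < z → 0 < y) ∧ (x < 0 → z < 0 → y < 0) := by
    intro x y z a b c ha hb hc e
    refine ⟨fun hx hz => ?_, fun hx hz => ?_⟩
    · have h1 := mul_pos hx ha
      have h2 := mul_pos hz hc
      have h3 : 0 < y * b := by linarith
      exact (mul_pos_iff_of_pos_right hb).1 h3
    · have h1 := mul_neg_of_neg_of_pos hx ha
      have h2 := mul_neg_of_neg_of_pos hz hc
      have h3 : y * b < 0 := by linarith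
      by_contra h4
      have := mul_nonneg (not_lt.1 h4) hb.le
      linarith
  have e1 := key (x := cross (q i) (q j) (q k)) (y := cross (q i) (q j) (q l))
    (z := cross (q i) (q k) (q l)) ail aik aij (by simp only [cross]; ring)
  have e2 := key (x := cross (q i) (q j) (q k)) (y := cross (q i) (q j) (q l))
    (z := cross (q j) (q k) (q l)) ajl ajk aij (by simp only [cross]; ring)
  have e3 := key (x := cross (q i) (q j) (q k)) (y := cross (q i) (q k) (q l))
    (z := cross (q j) (q k) (q l)) akl ajk aik (by simp only [cross]; ring)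
  have e4 := key (x := cross (q i) (q j) (q l)) (y := cross (q i) (q k) (q l))
    (z := cross (q j) (q k) (q l)) akl ajl ail (by simp only [cross]; ring)
  exact ⟨e1.1, e1.2, e2.1, e2.2, e3.1, e3.2, e4.1, e4.2⟩

end Pool.Agent.Lib.MP_9bb24e_co
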