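import Pool.Agent.Lib.MP_9bb24e_co.U.Defs

/-!
# Module Hull: every set has a hull edge
Proof. Let `v` be the lexicographically smallest point of `S`. For `x, y ∈ S` different from `v`
the relation `0 < cross v x y` is a strict total order (all points lie in the half plane
`x.1 > v.1` or `x.1 = v.1, x.2 > v.2`), e.g. compare by the slope from `v`, with value `+∞` for the
vertical direction; the minimal point is `w`. (Alternatively apply a shear first.)
-/

set_option autoImplicit false

namespace Pool.Agent.Lib.MP_9bb24e_co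

open Finset

theorem Hull_collinear {a b c : ℝ × ℝ} (hab : a ≠ b) (h : cross a b c = 0) :
    Collinear ℝ {a, b, c} := by
  rw [collinear_iff_of_mem (p₀ := a) (by simp)]
  refine ⟨b - a, ?_⟩
  have hc : ∃ r : ℝ, c = r • (b - a) +ᵥ a := by
    unfold cross at h
    by_cases h1 : b.1 - a.1 = 0
    · have h2 : b.2 - a.2 ≠ 0 := by
        intro h2
        exact hab (Prod.ext (by linarith) (by linarith))
      refine ⟨(c.2 - a.2) / (b.2 - a.2), ?_⟩
      rw [h1, zero_mul, zero_sub, neg_eq_zero, mul_eq_zero] at h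
      have h3 : c.1 - a.1 = 0 := h.resolve_left h2
      refine Prod.ext ?_ ?_
      · simp only [vadd_eq_add, Prod.fst_add, Prod.smul_fst, Prod.fst_sub, smul_eq_mul]
        rw [h1, mul_zero, zero_add]
        linarith
      · simp only [vadd_eq_add, Prod.snd_add, Prod.smul_snd, Prod.snd_sub, smul_eq_mul]
        rw [div_mul_cancel₀ _ h2]
        ring
    · refine ⟨(c.1 - a.1) / (b.1 - a.1), ?_⟩
      refine Prod.ext ?_ ?_
      · simp only [vadd_eq_add, Prod.fst_add, Prod.smul_fst, Prod.fst_sub, smul_eq_mul]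
        rw [div_mul_cancel₀ _ h1]
        ring
      · simp only [vadd_eq_add, Prod.snd_add, Prod.smul_snd, Prod.snd_sub, smul_eq_mul]
        have h4 : (c.1 - a.1) / (b.1 - a.1) * (b.2 - a.2) = c.2 - a.2 := by
          rw [div_mul_eq_mul_div, div_eq_iff h1]
          linarith
        rw [h4]
        ring
  intro p hp
  simp only [Set.mem_insert_iff, Set.mem_singleton_iff] at hp
  rcases hp with rfl | rfl | rfl
  · exact ⟨0, by simp⟩
  · exact ⟨1, by simp⟩
  · exact hc

theorem cross_ne_zero_of_genPos {S : Finset (ℝ × ℝ)} (hS : GenPos S) {a b c : ℝ × ℝ} (ha : a ∈ S)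
    (hb : b ∈ S) (hc : c ∈ S) (hab : a ≠ b) (hbc : b ≠ c) (hac : a ≠ c) : cross a b c ≠ 0 :=
  fun h => hS a ha b hb c hc hab hbc hac (Hull_collinear hab h)

theorem exists_inst (S : Finset (ℝ × ℝ)) (hS : GenPos S) (h2 : 2 ≤ S.card) :
    ∃ v w, Inst S v w := by
  classical
  have hne : S.Nonempty := Finset.card_pos.1 (by omega)
  obtain ⟨v, hv, hmin⟩ := Finset.exists_min_image S (fun x => toLex x) hne
  have hv2 : ∀ x ∈ S, x ≠ v → v.1 < x.1 ∨ (v.1 = x.1 ∧ v.2 < x.2) := by
    intro x hx hxv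
    have h := hmin x hx
    rw [Prod.Lex.toLex_le_toLex] at h
    rcases h with h | ⟨h1, h3⟩
    · exact Or.inl h
    · rcases lt_or_eq_of_le h3 with h4 | h4
      · exact Or.inr ⟨h1, h4⟩
      · exact absurd (Prod.ext h1.symm h4.symm) hxv
  by_cases hB : ∃ x ∈ S, v.1 < x.1
  · have hne2 : (S.filter fun x => v.1 < x.1).Nonempty := by
      obtain ⟨x, hx, hx1⟩ := hB
      exact ⟨x, Finset.mem_filter.2 ⟨hx, hx1⟩⟩
    obtain ⟨w, hw, hwmin⟩ := Finset.exists_min_image (S.filter fun x => v.1 < x.1)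
      (fun x => (x.2 - v.2) / (x.1 - v.1)) hne2
    obtain ⟨hwS, hw1⟩ := Finset.mem_filter.1 hw
    have hvw : v ≠ w := by
      rintro rfl
      exact lt_irrefl _ hw1
    refine ⟨v, w, hS, hv, hwS, hvw, ?_⟩
    intro p hp hpv hpw
    have hne0 : cross v w p ≠ 0 := cross_ne_zero_of_genPos hS hv hwS hp hvw (Ne.symm hpw)
      (Ne.symm hpv)
    rcases hv2 p hp hpv with h | ⟨h, h'⟩
    · have h3 := hwmin p (Finset.mem_filter.2 ⟨hp, h⟩)
      rw [div_le_div_iff₀ (by linarith) (by linarith)] at h3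
      refine lt_of_le_of_ne ?_ (Ne.symm hne0)
      unfold cross
      linarith
    · unfold cross
      rw [← h]
      have : 0 < (w.1 - v.1) * (p.2 - v.2) := mul_pos (by linarith) (by linarith)
      linarith
  · have hvert : ∀ x ∈ S, x ≠ v → v.1 = x.1 := by
      intro x hx hxv
      rcases hv2 x hx hxv with h | h
      · exact absurd ⟨x, hx, h⟩ hB
      · exact h.1
    obtain ⟨w, hw, hwv⟩ := Finset.exists_mem_ne (by omega : 1 < S.card) v
    refine ⟨v, w, hS, hv, hw, Ne.symm hwv, ?_⟩
    intro p hp hpv hpw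
    exfalso
    have hne0 : cross v w p ≠ 0 := cross_ne_zero_of_genPos hS hv hw hp (Ne.symm hwv)
      (Ne.symm hpw) (Ne.symm hpv)
    apply hne0
    unfold cross
    rw [← hvert w hw hwv, ← hvert p hp hpv]
    ring

end Pool.Agent.Lib.MP_9bb24e_co
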