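import Pool.Agent.Lib.MP_9bb24e_co.U.AreaNeg
import Pool.Agent.Lib.MP_9bb24e_co.U.Hull

/-!
# Module FromPath: a path gives a polygonization
Proof. `n = S.card = l.length`; put `p i = l[i.val]` (list of the path). Edges `i` with
`i.val + 1 < n` are the edges of the chain, the edge `n - 1` is the segment `w v`. Non adjacent
edges of the chain are disjoint by `SimpleE`; adjacent edges meet only in the common vertex because
the three points are not collinear; an edge of the chain meets the line through `v` and `w` only in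
`v` or `w` (all other points of `S` are strictly on one side: use the functional `cross v w`). The
closing edge has all other points to its right (`cross w v x = - cross v w x < 0`), so
`area2 p < 0` by `area2_neg`, a vertex is reflex iff its turn is positive; at the vertices `v` and
`w` (indices `0` and `n - 1`) the turn is negative (`cross w v x < 0` and `cross x w v < 0`), the
others are counted by `leftT l`. `reflexivity` is an infimum (`Nat.sInf_le`).
See Exist.lean for the handling of `ZMod`.
-/

set_option autoImplicit false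

namespace Pool.Agent.Lib.MP_9bb24e_co

open Finset

theorem fp_avoid (a b d : ℝ × ℝ) : ∀ L : List (ℝ × ℝ), AvoidE a b L → ∀ j, j + 1 < L.length →
    ∀ z ∈ segment ℝ a b, z ∉ segment ℝ (L.getD j d) (L.getD (j + 1) d)
  | [], _, j, hj, _, _ => absurd hj (by simp)
  | [_], _, j, hj, _, _ => absurd hj (by simp)
  | c :: e :: t, h, 0, _, z, hz => by
      simpa using h.1 z hz
  | c :: e :: t, h, j + 1, hj, z, hz => by
      have := fp_avoid a b d (e :: t) h.2 j (by simpa using hj) z hz
      simpa using this

theorem fp_simple (d : ℝ × ℝ) : ∀ l : List (ℝ × ℝ), SimpleE l → ∀ i j, i + 1 < j →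
    j + 1 < l.length → ∀ z ∈ segment ℝ (l.getD i d) (l.getD (i + 1) d),
      z ∉ segment ℝ (l.getD j d) (l.getD (j + 1) d)
  | [], _, _, _, _, hj, _, _ => absurd hj (by simp)
  | [_], _, _, _, _, hj, _, _ => absurd hj (by simp)
  | [_, _], _, i, j, hij, hj, _, _ => absurd hj (by simp; omega)
  | a :: b :: c :: t, h, 0, j, hij, hj, z, hz => by
      obtain ⟨k, rfl⟩ : ∃ k, j = k + 2 := ⟨j - 2, by omega⟩
      have := fp_avoid a b d (c :: t) h.1 k (by simpa using hj) z (by simpa using hz)
      simpa using this
  | a :: b :: c :: t, h, i + 1, j, hij, hj, z, hz => by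
      obtain ⟨k, rfl⟩ : ∃ k, j = k + 1 := ⟨j - 1, by omega⟩
      have := fp_simple d (b :: c :: t) h.2 i k (by omega) (by simpa using hj) z
        (by simpa using hz)
      simpa using this

open Classical in
theorem fp_leftT (d : ℝ × ℝ) : ∀ l : List (ℝ × ℝ), leftT l =
    ((range (l.length - 2)).filter fun k => 0 < cross (l.getD k d) (l.getD (k + 1) d)
      (l.getD (k + 2) d)).card
  | [] => by simp [leftT]
  | [_] => by simp [leftT]
  | [_, _] => by simp [leftT]
  | a :: b :: c :: t => by
      rw [leftT, fp_leftT d (b :: c :: t)]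
      have e : (a :: b :: c :: t).length - 2 = ((b :: c :: t).length - 2) + 1 := by
        simp
      rw [e, Finset.card_filter, Finset.card_filter, Finset.sum_range_succ', add_comm]
      congr 1

theorem fp_cross_seg (v w a b : ℝ × ℝ) {z : ℝ × ℝ} (hz : z ∈ segment ℝ a b) :
    ∃ t : ℝ, 0 ≤ t ∧ t ≤ 1 ∧ z = (1 - t) • a + t • b ∧
      cross v w z = (1 - t) * cross v w a + t * cross v w b := by
  obtain ⟨s, t, hs, ht, hst, rfl⟩ := hz
  have hs' : s = 1 - t := by linarith
  subst hs'
  refine ⟨t, ht, by linarith, rfl, ?_⟩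
  simp only [cross, Prod.fst_add, Prod.snd_add, Prod.smul_fst, Prod.smul_snd, smul_eq_mul]
  ring

theorem fp_adjacent {a b c z : ℝ × ℝ} (h : cross a b c ≠ 0) (h1 : z ∈ segment ℝ a b)
    (h2 : z ∈ segment ℝ b c) : z = b := by
  obtain ⟨s, _, _, _, hs⟩ := fp_cross_seg a b a b h1
  obtain ⟨t, _, _, hz, ht⟩ := fp_cross_seg a b b c h2
  have e1 : cross a b a = 0 := by simp [cross]
  have e2 : cross a b b = 0 := by simp only [cross]; ring
  rw [e1, e2] at hs
  rw [e2] at ht
  have e3 : t * cross a b c = 0 := by linarith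
  rcases mul_eq_zero.1 e3 with h0 | h0
  · rw [hz, h0]; simp
  · exact absurd h0 h

theorem reflexivity_le_of_TP {S : Finset (ℝ × ℝ)} {v w : ℝ × ℝ} (h : Inst S v w)
    (h3 : 3 ≤ S.card) {r : ℕ} (ht : TP S v w r) : reflexivity S ≤ r := by
  classical
  obtain ⟨l, hnd, hmem, hhead, hlast, hsimpE, hleft⟩ := ht
  have hlen : l.length = S.card := by
    have e : l.toFinset = S := by
      ext x; rw [List.mem_toFinset]; exact hmem x
    rw [← e, List.toFinset_card_of_nodup hnd]
  obtain ⟨m, hm⟩ : ∃ m, S.card = m + 1 := ⟨S.card - 1, by omega⟩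
  have hm2 : 2 ≤ m := by omega
  set Q : ℕ → ℝ × ℝ := fun k => l.getD k v with hQ
  have hQget : ∀ k, (hk : k < l.length) → Q k = l[k] := by
    intro k hk
    simp only [hQ]
    rw [List.getD_eq_getElem _ _ hk]
  have hQ0 : Q 0 = v := by
    simp only [hQ]
    cases l with
    | nil => simp
    | cons a t => simpa using hhead
  have hQm1 : Q (m + 1) = v := by
    simp only [hQ]
    rw [List.getD_eq_default _ _ (by omega)]
  have hQm : Q m = w := by
    rw [hQget m (by omega)]
    rw [List.getLast?_eq_getElem?] at hlast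
    have e : l.length - 1 = m := by omega
    rw [e, List.getElem?_eq_getElem (by omega)] at hlast
    simpa using hlast
  have hQmem : ∀ k, k ≤ m → Q k ∈ S := by
    intro k hk
    rw [hQget k (by omega), ← hmem]
    exact List.getElem_mem _
  have hQinj : ∀ i j, i ≤ m → j ≤ m → Q i = Q j → i = j := by
    intro i j hi hj he
    rw [hQget i (by omega), hQget j (by omega)] at he
    exact (List.Nodup.getElem_inj_iff hnd).1 he
  have hQsurj : ∀ z ∈ S, ∃ k, k ≤ m ∧ Q k = z := by
    intro z hz
    rw [← hmem, List.mem_iff_getElem] at hz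
    obtain ⟨k, hk, hkz⟩ := hz
    exact ⟨k, by omega, by rw [hQget k hk, hkz]⟩
  have hQv : ∀ k, 1 ≤ k → k ≤ m → Q k ≠ v := by
    intro k hk hkm he
    have := hQinj k 0 hkm (by omega) (by rw [he, hQ0])
    omega
  have hQw : ∀ k, k < m → Q k ≠ w := by
    intro k hk he
    have := hQinj k m hk.le le_rfl (by rw [he, hQm])
    omega
  have hpos : ∀ k, 1 ≤ k → k < m → 0 < cross v w (Q k) := fun k h1 h2 =>
    h.left _ (hQmem k h2.le) (hQv k h1 h2.le) (hQw k h2)
  have hcne : ∀ k, k + 2 ≤ m → cross (Q k) (Q (k + 1)) (Q (k + 2)) ≠ 0 := by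
    intro k hk
    refine cross_ne_zero_of_genPos h.gp (hQmem _ (by omega)) (hQmem _ (by omega))
      (hQmem _ (by omega)) ?_ ?_ ?_
    · intro he; have := hQinj _ _ (by omega) (by omega) he; omega
    · intro he; have := hQinj _ _ (by omega) (by omega) he; omega
    · intro he; have := hQinj _ _ (by omega) (by omega) he; omega
  have evw1 : cross v w v = 0 := by simp [cross]
  have evw2 : cross v w w = 0 := by simp only [cross]; ring
  -- the closing edge
  have hclose : ∀ i, i < m → ∀ z, z ∈ segment ℝ (Q i) (Q (i + 1)) →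
      z ∈ segment ℝ (Q m) (Q (m + 1)) →
      (z = Q i ∨ z = Q (i + 1)) ∧ (z = Q m ∨ z = Q (m + 1)) := by
    intro i hi z hz1 hz2
    rw [hQm, hQm1] at hz2
    obtain ⟨s, _, _, _, hs⟩ := fp_cross_seg v w w v hz2
    obtain ⟨t, ht0, ht1, hz, htc⟩ := fp_cross_seg v w (Q i) (Q (i + 1)) hz1
    rw [evw1, evw2] at hs
    have hz0 : (1 - t) * cross v w (Q i) + t * cross v w (Q (i + 1)) = 0 := by
      rw [← htc, hs]; ring
    rw [hQm, hQm1]
    rcases Nat.eq_zero_or_pos i with hi0 | hi0
    · subst hi0
      rw [hQ0, evw1] at hz0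
      have hp := hpos 1 le_rfl (by omega)
      have : t = 0 := by
        have : t * cross v w (Q (0 + 1)) = 0 := by linarith
        rcases mul_eq_zero.1 this with h0 | h0
        · exact h0
        · rw [Nat.zero_add] at h0; linarith
      have hzv : z = v := by
        rw [hz, this, hQ0]; simp
      rw [hzv, hQ0]
      exact ⟨Or.inl rfl, Or.inr rfl⟩
    · rcases Nat.lt_or_ge (i + 1) m with h1 | h1
      · exfalso
        have hp1 := hpos i hi0 hi
        have hp2 := hpos (i + 1) (by omega) h1
        rcases ht0.eq_or_lt with h0 | h0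
        · rw [← h0] at hz0
          linarith
        · have := mul_pos h0 hp2
          have := mul_nonneg (sub_nonneg.2 ht1) hp1.le
          linarith
      · have e : i + 1 = m := by omega
        rw [e, hQm, evw2] at hz0
        have hp := hpos i hi0 hi
        have : t = 1 := by
          have : (1 - t) * cross v w (Q i) = 0 := by linarith
          rcases mul_eq_zero.1 this with h0 | h0
          · linarith
          · linarith
        have hzw : z = w := by
          rw [hz, this, e, hQm]; simp
        rw [hzw, e, hQm]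
        exact ⟨Or.inr rfl, Or.inl rfl⟩
  have hsimp : ∀ i j, i < j → j ≤ m → ∀ z, z ∈ segment ℝ (Q i) (Q (i + 1)) →
      z ∈ segment ℝ (Q j) (Q (j + 1)) →
      (z = Q i ∨ z = Q (i + 1)) ∧ (z = Q j ∨ z = Q (j + 1)) := by
    intro i j hij hj z hz1 hz2
    rcases hj.eq_or_lt with hjm | hjm
    · subst hjm
      exact hclose i hij z hz1 hz2
    · rcases Nat.lt_or_ge (i + 1) j with h1 | h1
      · exact absurd hz2 (fp_simple v l hsimpE i j h1 (by omega) z hz1)
      · have e : j = i + 1 := by omega
        subst e
        have := fp_adjacent (hcne i (by omega)) hz1 hz2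
        exact ⟨Or.inr this, Or.inl this⟩
  have hne : NeZero S.card := ⟨by omega⟩
  have hval : ∀ z : ZMod S.card, z.val ≤ m := by
    intro z
    have := ZMod.val_lt z
    omega
  have hsucc : ∀ z : ZMod S.card, Q (z + 1).val = Q (z.val + 1) := by
    intro z
    have : Fact (1 < S.card) := ⟨by omega⟩
    have hone : (1 : ZMod S.card).val = 1 := ZMod.val_one _
    rw [ZMod.val_add, hone]
    have := ZMod.val_lt z
    rcases Nat.lt_or_ge (z.val + 1) S.card with h | h
    · rw [Nat.mod_eq_of_lt h]
    · have e : z.val + 1 = S.card := by omega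
      rw [e, Nat.mod_self, hm, hQm1, hQ0]
  have hpoly : IsPolygonization S (fun z : ZMod S.card => Q z.val) := by
    refine ⟨?_, ?_, ?_⟩
    · intro a b hab
      exact ZMod.val_injective _ (hQinj _ _ (hval a) (hval b) hab)
    · ext z
      simp only [Set.mem_range, mem_coe]
      constructor
      · rintro ⟨y, rfl⟩
        exact hQmem _ (hval y)
      · intro hz
        obtain ⟨k, hk, hkz⟩ := hQsurj z hz
        refine ⟨(k : ZMod S.card), ?_⟩
        rw [ZMod.val_natCast, Nat.mod_eq_of_lt (by omega), hkz]
    · intro i j hij z hz1 hz2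
      simp only [hsucc] at hz1 hz2 ⊢
      have hne : i.val ≠ j.val := fun h => hij (ZMod.val_injective _ h)
      rcases lt_or_gt_of_ne hne with h | h
      · exact hsimp _ _ h (hval j) z hz1 hz2
      · exact (hsimp _ _ h (hval i) z hz2 hz1).symm
  have hswap : ∀ x, cross w v x = - cross v w x := by
    intro x; simp only [cross]; ring
  have harea : area2 (fun z : ZMod S.card => Q z.val) < 0 := by
    refine area2_neg hpoly h.gp h3 (m : ZMod S.card) ?_
    have e1 : ((m : ℕ) : ZMod S.card).val = m := by
      rw [ZMod.val_natCast, Nat.mod_eq_of_lt (by omega)]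
    intro x hx hx1 hx2
    simp only [hsucc] at hx1 hx2 ⊢
    rw [e1] at hx1 hx2 ⊢
    rw [hQm] at hx1 ⊢
    rw [hQm1] at hx2 ⊢
    rw [hswap]
    have := h.left x hx hx2 hx1
    linarith
  have hpred : ∀ z : ZMod S.card, z.val ≠ 0 → (z - 1).val = z.val - 1 := by
    intro z hz
    have : Fact (1 < S.card) := ⟨by omega⟩
    have hone : (1 : ZMod S.card).val = 1 := ZMod.val_one _
    rw [ZMod.val_sub, hone]
    rw [hone]; omega
  have hpred0 : ∀ z : ZMod S.card, z.val = 0 → (z - 1).val = m := by
    intro z hz
    have e : z = ((m : ℕ) : ZMod S.card) + 1 := by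
      apply ZMod.val_injective
      have h1 : ((m : ℕ) : ZMod S.card) + 1 = ((S.card : ℕ) : ZMod S.card) := by
        rw [hm]; push_cast; ring
      rw [h1, ZMod.natCast_self, hz, ZMod.val_zero]
    rw [e, add_sub_cancel_right, ZMod.val_natCast, Nat.mod_eq_of_lt (by omega)]
  have hle : reflexivity S ≤
      {i : ZMod S.card | IsReflex (fun z : ZMod S.card => Q z.val) i}.ncard :=
    Nat.sInf_le ⟨_, hpoly, rfl⟩
  refine hle.trans (le_trans ?_ hleft)
  rw [fp_leftT v l]
  have hset : {i : ZMod S.card | IsReflex (fun z : ZMod S.card => Q z.val) i}.ncard =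
      (univ.filter fun i : ZMod S.card => IsReflex (fun z : ZMod S.card => Q z.val) i).card := by
    rw [Set.ncard_eq_toFinset_card']
    congr 1
    ext i
    simp
  rw [hset]
  have hrefl : ∀ i : ZMod S.card, IsReflex (fun z : ZMod S.card => Q z.val) i →
      1 ≤ i.val ∧ i.val < m ∧ 0 < cross (Q (i.val - 1)) (Q i.val) (Q (i.val + 1)) := by
    intro i hi
    unfold IsReflex at hi
    simp only [hsucc] at hi
    have hi' : 0 < cross (Q (i - 1).val) (Q i.val) (Q (i.val + 1)) := by
      by_contra hcon
      have := mul_nonneg_of_nonpos_of_nonpos (not_lt.1 hcon) harea.le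
      linarith
    rcases Nat.eq_zero_or_pos i.val with h0 | h0
    · exfalso
      rw [hpred0 i h0, h0, hQm, hQ0, hswap] at hi'
      have := hpos 1 le_rfl (by omega)
      rw [Nat.zero_add] at hi'
      linarith
    · rw [hpred i (by omega)] at hi'
      refine ⟨h0, ?_, hi'⟩
      by_contra hcon
      have e : i.val = m := le_antisymm (hval i) (not_lt.1 hcon)
      rw [e, hQm, hQm1] at hi'
      have e2 : cross (Q (m - 1)) w v = - cross v w (Q (m - 1)) := by
        simp only [cross]; ring
      rw [e2] at hi'
      have := hpos (m - 1) (by omega) (by omega)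
      linarith
  refine Finset.card_le_card_of_injOn (fun i => i.val - 1) ?_ ?_
  · intro i hi
    simp only [coe_filter, mem_univ, true_and, Set.mem_setOf_eq] at hi
    obtain ⟨a1, a2, a3⟩ := hrefl i hi
    simp only [coe_filter, mem_range, Set.mem_setOf_eq]
    refine ⟨by omega, ?_⟩
    have e1 : i.val - 1 + 1 = i.val := by omega
    have e2 : i.val - 1 + 2 = i.val + 1 := by omega
    rw [e1, e2]
    exact a3
  · intro i hi j hj hij
    simp only [coe_filter, mem_univ, true_and, Set.mem_setOf_eq] at hi hj
    obtain ⟨a1, _, _⟩ := hrefl i hi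
    obtain ⟨b1, _, _⟩ := hrefl j hj
    apply ZMod.val_injective
    dsimp only at hij
    omega

end Pool.Agent.Lib.MP_9bb24e_co
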