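import Pool.Agent.Lib.MP_9bb24e_co.U.Defs

/-!
# Module Small: instances with two and three points, mirror images
Two points: the list `[v, w]`. Three points `v, p, w`: the list `[v, p, w]`; it has no left turn,
since `cross v p w = - cross v w p < 0`. Mirror image: apply the reflection `(x, y) ↦ (-x, y)` and
reverse the list: `cross` changes the sign under the reflection and again under the reversal.
-/

set_option autoImplicit false

namespace Pool.Agent.Lib.MP_9bb24e_co

open Finset

theorem Small_sub {S : Finset (ℝ × ℝ)} {v w : ℝ × ℝ} (h : Inst S v w) :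
    ({v, w} : Finset (ℝ × ℝ)) ⊆ S ∧ ({v, w} : Finset (ℝ × ℝ)).card = 2 := by
  refine ⟨?_, Finset.card_pair h.ne⟩
  intro x hx
  rw [Finset.mem_insert, Finset.mem_singleton] at hx
  rcases hx with rfl | rfl
  · exact h.v_mem
  · exact h.w_mem

theorem Inst.two_le {S : Finset (ℝ × ℝ)} {v w : ℝ × ℝ} (h : Inst S v w) : 2 ≤ S.card := by
  rw [← (Small_sub h).2]
  exact Finset.card_le_card (Small_sub h).1

theorem TP_two {S : Finset (ℝ × ℝ)} {v w : ℝ × ℝ} (h : Inst S v w) (h2 : S.card = 2) :
    TP S v w 0 := by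
  have hS : ({v, w} : Finset (ℝ × ℝ)) = S :=
    Finset.eq_of_subset_of_card_le (Small_sub h).1 (by rw [(Small_sub h).2, h2])
  refine ⟨[v, w], ?_, ?_, rfl, rfl, ?_, ?_⟩
  · simp [h.ne]
  · intro x
    rw [← hS]
    simp
  · simp [SimpleE]
  · simp [leftT]

theorem TP_three {S : Finset (ℝ × ℝ)} {v w : ℝ × ℝ} (h : Inst S v w) (h3 : S.card = 3) :
    TP S v w 0 := by
  obtain ⟨p, hp, hpn⟩ : ∃ p ∈ S, p ∉ ({v, w} : Finset (ℝ × ℝ)) := by
    by_contra hcon
    push Not at hcon
    have h4 := Finset.card_le_card (show S ⊆ {v, w} from hcon)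
    rw [(Small_sub h).2, h3] at h4
    omega
  have hpv : p ≠ v := fun e => hpn (by simp [e])
  have hpw : p ≠ w := fun e => hpn (by simp [e])
  have hc : ({v, p, w} : Finset (ℝ × ℝ)).card = 3 :=
    Finset.card_eq_three.mpr ⟨v, p, w, hpv.symm, h.ne, hpw, rfl⟩
  have hS : ({v, p, w} : Finset (ℝ × ℝ)) = S := by
    refine Finset.eq_of_subset_of_card_le ?_ (by rw [hc, h3])
    intro x hx
    rw [Finset.mem_insert, Finset.mem_insert, Finset.mem_singleton] at hx
    rcases hx with rfl | rfl | rfl
    · exact h.v_mem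
    · exact hp
    · exact h.w_mem
  refine ⟨[v, p, w], ?_, ?_, rfl, rfl, ?_, ?_⟩
  · simp [h.ne, hpv.symm, hpw]
  · intro x
    rw [← hS]
    simp
  · simp [SimpleE, AvoidE]
  · have h5 := h.left p hp hpv hpw
    have h6 : cross v p w = - cross v w p := by
      unfold cross
      ring
    have h7 : ¬ 0 < cross v p w := by
      rw [h6]
      linarith
    simp [leftT, h7]

/-- The mirror image. -/
def mir (p : ℝ × ℝ) : ℝ × ℝ := (-p.1, p.2)

theorem Small_mir_mir (p : ℝ × ℝ) : mir (mir p) = p := by
  unfold mir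
  simp

theorem Small_mir_inj : Function.Injective mir := fun p q h => by
  rw [← Small_mir_mir p, h, Small_mir_mir]

theorem Small_cross_mir (a b c : ℝ × ℝ) : cross (mir a) (mir b) (mir c) = - cross a b c := by
  unfold cross mir
  ring

theorem Inst.mir {S : Finset (ℝ × ℝ)} {v w : ℝ × ℝ} (h : Inst S v w) :
    Inst (S.image mir) (mir w) (mir v) where
  gp := by
    intro a ha b hb c hc hab hbc hac hcol
    obtain ⟨a', ha', rfl⟩ := Finset.mem_image.mp ha
    obtain ⟨b', hb', rfl⟩ := Finset.mem_image.mp hb
    obtain ⟨c', hc', rfl⟩ := Finset.mem_image.mp hc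
    refine h.gp a' ha' b' hb' c' hc' (fun e => hab (by rw [e])) (fun e => hbc (by rw [e]))
      (fun e => hac (by rw [e])) ?_
    rw [collinear_iff_exists_forall_eq_smul_vadd] at hcol ⊢
    obtain ⟨p₀, u, hu⟩ := hcol
    refine ⟨Pool.Agent.Lib.MP_9bb24e_co.mir p₀, Pool.Agent.Lib.MP_9bb24e_co.mir u, ?_⟩
    intro p hp
    have hp2 : Pool.Agent.Lib.MP_9bb24e_co.mir p ∈
        ({Pool.Agent.Lib.MP_9bb24e_co.mir a', Pool.Agent.Lib.MP_9bb24e_co.mir b',
          Pool.Agent.Lib.MP_9bb24e_co.mir c'} : Set (ℝ × ℝ)) := by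
      rcases hp with rfl | rfl | rfl
      · exact Or.inl rfl
      · exact Or.inr (Or.inl rfl)
      · exact Or.inr (Or.inr rfl)
    obtain ⟨r, hr⟩ := hu _ hp2
    refine ⟨r, ?_⟩
    have h1 := congrArg Pool.Agent.Lib.MP_9bb24e_co.mir hr
    rw [Small_mir_mir] at h1
    rw [h1]
    simp only [Pool.Agent.Lib.MP_9bb24e_co.mir, vadd_eq_add]
    refine Prod.ext ?_ ?_
    · simp
      ring
    · simp
  v_mem := Finset.mem_image_of_mem _ h.w_mem
  w_mem := Finset.mem_image_of_mem _ h.v_mem
  ne := fun e => h.ne (Small_mir_inj e).symm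
  left := by
    intro p hp hpw hpv
    obtain ⟨q, hq, rfl⟩ := Finset.mem_image.mp hp
    rw [Small_cross_mir]
    have h1 := h.left q hq (fun e => hpv (by rw [e])) (fun e => hpw (by rw [e]))
    have h2 : cross w v q = - cross v w q := by
      unfold cross
      ring
    rw [h2]
    linarith

theorem Small_avoid_iff (a b : ℝ × ℝ) (l : List (ℝ × ℝ)) : AvoidE a b l ↔
    ∀ l2 c d l3, l = l2 ++ c :: d :: l3 → ∀ z ∈ segment ℝ a b, z ∉ segment ℝ c d := by
  induction l with
  | nil =>
    constructor
    · intro _ l2 c d l3 h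
      simp at h
    · intro _
      simp [AvoidE]
  | cons x l ih =>
    rcases l with _ | ⟨y, t⟩
    · constructor
      · intro _ l2 c d l3 h
        have h1 := congrArg List.length h
        simp at h1
        omega
      · intro _
        simp [AvoidE]
    · constructor
      · rintro ⟨h1, h2⟩ l2 c d l3 h
        rcases l2 with _ | ⟨x', l2⟩
        · simp only [List.nil_append, List.cons.injEq] at h
          obtain ⟨rfl, rfl, _⟩ := h
          exact h1
        · simp only [List.cons_append, List.cons.injEq] at h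
          exact ih.mp h2 l2 c d l3 h.2
      · intro h
        refine ⟨h [] x y t rfl, ih.mpr ?_⟩
        intro l2 c d l3 e
        exact h (x :: l2) c d l3 (by rw [e]; rfl)

theorem Small_simple_iff (l : List (ℝ × ℝ)) : SimpleE l ↔
    ∀ l1 a b l2 c d l3, l = l1 ++ a :: b :: (l2 ++ c :: d :: l3) →
      ∀ z ∈ segment ℝ a b, z ∉ segment ℝ c d := by
  induction l with
  | nil =>
    constructor
    · intro _ l1 a b l2 c d l3 h
      simp at h
    · intro _
      simp [SimpleE]
  | cons x l ih =>
    rcases l with _ | ⟨y, _ | ⟨y', t⟩⟩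
    · constructor
      · intro _ l1 a b l2 c d l3 h
        have h1 := congrArg List.length h
        simp at h1
        omega
      · intro _
        simp [SimpleE]
    · constructor
      · intro _ l1 a b l2 c d l3 h
        have h1 := congrArg List.length h
        simp at h1
        omega
      · intro _
        simp [SimpleE]
    · constructor
      · rintro ⟨h1, h2⟩ l1 a b l2 c d l3 h
        rcases l1 with _ | ⟨x', l1⟩
        · simp only [List.nil_append, List.cons.injEq] at h
          obtain ⟨rfl, rfl, h3⟩ := h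
          exact (Small_avoid_iff _ _ _).mp h1 l2 c d l3 h3
        · simp only [List.cons_append, List.cons.injEq] at h
          exact ih.mp h2 l1 a b l2 c d l3 h.2
      · intro h
        refine ⟨(Small_avoid_iff _ _ _).mpr ?_, ih.mpr ?_⟩
        · intro l2 c d l3 e
          exact h [] x y l2 c d l3 (by rw [e]; rfl)
        · intro l1 a b l2 c d l3 e
          exact h (x :: l1) a b l2 c d l3 (by rw [e]; rfl)

theorem Small_simple_reverse {l : List (ℝ × ℝ)} (h : SimpleE l) : SimpleE l.reverse := by
  rw [Small_simple_iff] at h ⊢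
  intro l1 a b l2 c d l3 e z hz hz'
  have e1 : l = l3.reverse ++ d :: c :: (l2.reverse ++ b :: a :: l1.reverse) := by
    rw [← List.reverse_reverse l, e]
    simp
  exact h _ _ _ _ _ _ _ e1 z (by rw [segment_symm]; exact hz') (by rw [segment_symm]; exact hz)

theorem Small_segment_mir {a b z : ℝ × ℝ} (h : z ∈ segment ℝ a b) :
    mir z ∈ segment ℝ (mir a) (mir b) := by
  obtain ⟨s, t, hs, ht, hst, rfl⟩ := h
  refine ⟨s, t, hs, ht, hst, ?_⟩
  unfold mir
  refine Prod.ext ?_ ?_
  · simp
    ring
  · simp

theorem Small_simple_map {l : List (ℝ × ℝ)} (h : SimpleE l) : SimpleE (l.map mir) := by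
  rw [Small_simple_iff] at h ⊢
  intro l1 a b l2 c d l3 e z hz hz'
  have e1 : l = (l1.map mir) ++ mir a :: mir b ::
      ((l2.map mir) ++ mir c :: mir d :: (l3.map mir)) := by
    have e2 : (l.map mir).map mir = l := by
      rw [List.map_map]
      have : mir ∘ mir = id := funext Small_mir_mir
      rw [this, List.map_id]
    rw [← e2, e]
    simp
  exact h _ _ _ _ _ _ _ e1 (mir z) (Small_segment_mir hz) (Small_segment_mir hz')

open Classical in
theorem Small_leftT_snoc (m : List (ℝ × ℝ)) (x y z : ℝ × ℝ) :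
    leftT (m ++ [x, y, z]) = leftT (m ++ [x, y]) + (if 0 < cross x y z then 1 else 0) := by
  induction m with
  | nil => simp [leftT]
  | cons p m ih =>
    rcases m with _ | ⟨q, _ | ⟨r, m⟩⟩
    · simp [leftT]
    · simp only [List.cons_append, List.nil_append, leftT]
      omega
    · simp only [List.cons_append, leftT] at ih ⊢
      omega

theorem Small_leftT_mir (l : List (ℝ × ℝ)) : leftT (l.map mir).reverse = leftT l := by
  induction l with
  | nil => simp [leftT]
  | cons a l ih =>
    rcases l with _ | ⟨b, _ | ⟨c, t⟩⟩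
    · simp [leftT]
    · simp [leftT]
    · have e1 : ((a :: b :: c :: t).map mir).reverse =
          (t.map mir).reverse ++ [mir c, mir b, mir a] := by simp
      have e2 : ((b :: c :: t).map mir).reverse = (t.map mir).reverse ++ [mir c, mir b] := by simp
      rw [e2] at ih
      rw [e1, Small_leftT_snoc, ih, Small_cross_mir]
      have e3 : - cross c b a = cross a b c := by
        unfold cross
        ring
      rw [e3, leftT]
      omega

theorem TP_mir {S : Finset (ℝ × ℝ)} {v w : ℝ × ℝ} {r : ℕ}
    (h : TP (S.image mir) (mir w) (mir v) r) : TP S v w r := by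
  obtain ⟨l, h1, h2, h3, h4, h5, h6⟩ := h
  refine ⟨(l.map mir).reverse, ?_, ?_, ?_, ?_, ?_, ?_⟩
  · rw [List.nodup_reverse]
    exact h1.map Small_mir_inj
  · intro x
    rw [List.mem_reverse, List.mem_map]
    constructor
    · rintro ⟨y, hy, rfl⟩
      rw [h2, Finset.mem_image] at hy
      obtain ⟨z, hz, rfl⟩ := hy
      rw [Small_mir_mir]
      exact hz
    · intro hx
      exact ⟨mir x, (h2 _).mpr (Finset.mem_image_of_mem _ hx), Small_mir_mir x⟩
  · rw [List.head?_reverse, List.getLast?_map, h4]
    simp [Small_mir_mir]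
  · rw [List.getLast?_reverse, List.head?_map, h3]
    simp [Small_mir_mir]
  · exact Small_simple_reverse (Small_simple_map h5)
  · rw [Small_leftT_mir]
    exact h6

end Pool.Agent.Lib.MP_9bb24e_co
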