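import Pool.Agent.Lib.MP_9bb24e_co.U.Glue
import Pool.Agent.Lib.MP_9bb24e_co.U.Small
import Pool.Agent.Lib.MP_9bb24e_co.U.FromPath
import Pool.Agent.Lib.MP_9bb24e_co.U.CutA
import Pool.Agent.Lib.MP_9bb24e_co.U.CutB

/-!
# Module Fixed: the recursion
`block_rec`: strong induction on the number of points: a block `S1` with
`B * (r1 + 1) ≤ A * (S1.card - 1)` is split off; `S1.card + S2.card = S.card + 1`.
For `S.card < n0` use `exists_TP` (any path: split off blocks of three points: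
`exists_apex_zero`, or `exists_apex` and `exists_split` with `j = 1`, `TP_three`, gluing; two points
`TP_two`). `rho_le_of_TP`: `rho n` is a supremum of `reflexivity S` over sets in general position
(`csSup_le'`, or `csSup_le` and the empty case); `reflexivity_le_of_TP`, `exists_inst`.
-/

set_option autoImplicit false

namespace Pool.Agent.Lib.MP_9bb24e_co

open Finset

theorem Fixed_cut {S : Finset (ℝ × ℝ)} {v w : ℝ × ℝ} (h : Inst S v w) (k : ℕ) (hk : 2 ≤ k)
    (hk' : k < S.card) : ∃ S1 S2 s, Split S S1 S2 v w s ∧ S1.card = k := by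
  obtain ⟨s, h1, h2, h3⟩ := exists_apex h (k - 2) (by omega)
  obtain ⟨S1, S2, h4, h5⟩ := exists_split h h1 (k - 2) h2 h3
  exact ⟨S1, S2, s, h4, by omega⟩

theorem Fixed_TP (n : ℕ) : ∀ (S : Finset (ℝ × ℝ)) (v w : ℝ × ℝ), Inst S v w → S.card = n →
    TP S v w n := by
  induction n using Nat.strong_induction_on with
  | _ n ih =>
    intro S v w h hn
    have h2 := h.two_le
    rcases Nat.lt_or_ge 2 n with h3 | h3
    · obtain ⟨S1, S2, s, hs, hc⟩ := Fixed_cut h 2 le_rfl (by omega)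
      have hc2 := hs.card
      have t1 := TP_two hs.inst1 hc
      have t2 := ih (n - 1) (by omega) S2 s w hs.inst2 (by omega)
      exact (hs.glue t1 t2).mono (by omega)
    · exact (TP_two h (by omega)).mono (Nat.zero_le _)

theorem exists_TP {S : Finset (ℝ × ℝ)} {v w : ℝ × ℝ} (h : Inst S v w) : TP S v w S.card :=
  Fixed_TP S.card S v w h rfl

/-- Cuts of every size. -/
theorem exists_cut {S : Finset (ℝ × ℝ)} {v w : ℝ × ℝ} (h : Inst S v w) (k : ℕ) (hk : 2 ≤ k)
    (hk' : k < S.card) : ∃ S1 S2 s, Split S S1 S2 v w s ∧ S1.card = k :=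
  Fixed_cut h k hk hk'

theorem Fixed_rec (A B n0 : ℕ)
    (hblock : ∀ (S : Finset (ℝ × ℝ)) (v w : ℝ × ℝ), Inst S v w → n0 ≤ S.card →
      ∃ S1 S2 s r1, Split S S1 S2 v w s ∧ 3 ≤ S1.card ∧ TP S1 v s r1 ∧
        B * (r1 + 1) ≤ A * (S1.card - 1)) (n : ℕ) :
    ∀ (S : Finset (ℝ × ℝ)) (v w : ℝ × ℝ), Inst S v w → S.card = n →
      ∃ r, TP S v w r ∧ B * r ≤ A * n + B * n0 := by
  induction n using Nat.strong_induction_on with
  | _ n ih =>
    intro S v w h hn
    rcases Nat.lt_or_ge n n0 with h3 | h3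
    · refine ⟨n, hn ▸ exists_TP h, ?_⟩
      have h4 : B * n ≤ B * n0 := Nat.mul_le_mul_left B h3.le
      omega
    · obtain ⟨S1, S2, s, r1, hs, hc, t1, hr1⟩ := hblock S v w h (by omega)
      have hc2 := hs.card
      obtain ⟨r2, t2, hr2⟩ := ih S2.card (by omega) S2 s w hs.inst2 rfl
      refine ⟨r1 + r2 + 1, hs.glue t1 t2, ?_⟩
      have h5 : B * (r1 + r2 + 1) = B * (r1 + 1) + B * r2 := by ring
      have h6 : A * n = A * (S1.card - 1) + A * S2.card := by
        rw [← Nat.mul_add]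
        congr 1
        omega
      rw [h5, h6]
      omega

/-- **Recursion.** -/
theorem block_rec (A B n0 : ℕ)
    (hblock : ∀ (S : Finset (ℝ × ℝ)) (v w : ℝ × ℝ), Inst S v w → n0 ≤ S.card →
      ∃ S1 S2 s r1, Split S S1 S2 v w s ∧ 3 ≤ S1.card ∧ TP S1 v s r1 ∧
        B * (r1 + 1) ≤ A * (S1.card - 1)) :
    ∀ (S : Finset (ℝ × ℝ)) (v w : ℝ × ℝ), Inst S v w →
      ∃ r, TP S v w r ∧ B * r ≤ A * S.card + B * n0 :=
  fun S v w h => Fixed_rec A B n0 hblock S.card S v w h rfl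

theorem rho_le_of_TP (A B C n : ℕ) (hB : 0 < B) (hn : 3 ≤ n)
    (h : ∀ (S : Finset (ℝ × ℝ)) (v w : ℝ × ℝ), Inst S v w → S.card = n →
      ∃ r, TP S v w r ∧ B * r ≤ A * S.card + C) :
    B * rho n ≤ A * n + C := by
  have h1 : rho n ≤ (A * n + C) / B := by
    refine csSup_le' ?_
    rintro k ⟨S, hS, hg, rfl⟩
    obtain ⟨v, w, hI⟩ := exists_inst S hg (by omega)
    obtain ⟨r, hr, hr2⟩ := h S v w hI hS
    have h2 := reflexivity_le_of_TP hI (by omega) hr
    rw [Nat.le_div_iff_mul_le hB]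
    have h3 : reflexivity S * B ≤ r * B := Nat.mul_le_mul_right B h2
    rw [hS] at hr2
    have h4 : r * B = B * r := Nat.mul_comm r B
    omega
  exact (Nat.mul_le_mul_left B h1).trans (Nat.mul_div_le _ _)

/-- Blocks of a fixed size: if all instances with `k` points have a path with at most `F` left
turns, then `rho n ≤ (F + 1) / (k - 1) * n + C`. -/
theorem rho_le_of_table (k F : ℕ) (hk : 3 ≤ k)
    (h : ∀ (S : Finset (ℝ × ℝ)) (v w : ℝ × ℝ), Inst S v w → S.card = k → TP S v w F) :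
    ∀ n, 3 ≤ n → (k - 1) * rho n ≤ (F + 1) * n + (k - 1) * (k + 1) := by
  intro n hn
  refine rho_le_of_TP (F + 1) (k - 1) ((k - 1) * (k + 1)) n (by omega) hn ?_
  intro S v w hI _
  refine block_rec (F + 1) (k - 1) (k + 1) ?_ S v w hI
  intro S v w hI hc
  obtain ⟨S1, S2, s, hs, hk1⟩ := exists_cut hI k (by omega) (by omega)
  refine ⟨S1, S2, s, F, hs, by omega, h S1 v s hs.inst1 hk1, ?_⟩
  rw [hk1]
  exact le_of_eq (Nat.mul_comm _ _)

end Pool.Agent.Lib.MP_9bb24e_co
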