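import Pool.Agent.Lib.MP_9bb24e_co.U.Defs

/-!
# Module Glue: two paths are glued at the cut point
Proof. Let `φ p = a * p.1 + b * p.2` be the functional of `Split.sep`, `c = φ s`. If `l1` is the
path of `S1` (from `v` to `s`) and `s :: l2` the path of `S2` (from `s` to `w`), take `l1 ++ l2`
(write `l1 = m ++ [s]`, the new list is `m ++ s :: l2`). An edge of `l1` lies in `φ ≤ c` and
meets `φ = c` at most in `s`; an edge of `s :: l2` lies in `φ ≥ c` and meets `φ = c` at most in
`s`. So a common point of an edge of the first and an edge of the second chain is `s`, and then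
`s` is an end point of both: they are the last edge of `l1` and the first edge of `s :: l2`, which
are adjacent. `leftT (m ++ s :: l2) ≤ leftT (m ++ [s]) + 1 + leftT (s :: l2)` by induction on `m`.
-/

set_option autoImplicit false

namespace Pool.Agent.Lib.MP_9bb24e_co

open Finset

theorem TP.mono {S : Finset (ℝ × ℝ)} {v w : ℝ × ℝ} {r r' : ℕ} (h : TP S v w r) (hr : r ≤ r') :
    TP S v w r' := by
  obtain ⟨l, h1, h2, h3, h4, h5, h6⟩ := h
  exact ⟨l, h1, h2, h3, h4, h5, h6.trans hr⟩

theorem Split.card {S S1 S2 : Finset (ℝ × ℝ)} {v w s : ℝ × ℝ} (h : Split S S1 S2 v w s) :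
    S1.card + S2.card = S.card + 1 := by
  classical
  have h1 : S = S1 ∪ S2 := by
    ext p
    rw [mem_union]
    exact h.mem_iff p
  have h2 : S1 ∩ S2 = {s} := by
    ext p
    rw [mem_inter, mem_singleton]
    constructor
    · rintro ⟨ha, hb⟩
      exact h.inter p ha hb
    · rintro rfl
      exact ⟨h.inst1.w_mem, h.inst2.v_mem⟩
  have h3 := card_union_add_card_inter S1 S2
  rw [← h1, h2, card_singleton] at h3
  exact h3.symm

theorem Glue_leftT_cons (a b c : ℝ × ℝ) (t : List (ℝ × ℝ)) (hn : ¬ 0 < cross a b c) :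
    leftT (a :: b :: c :: t) = leftT (b :: c :: t) := by
  simp only [leftT, if_neg hn, zero_add]

/-- Number of left turns of a glued chain. -/
theorem leftT_append (m l : List (ℝ × ℝ)) (s : ℝ × ℝ) :
    leftT (m ++ s :: l) ≤ leftT (m ++ [s]) + leftT (s :: l) + 1 := by
  induction m with
  | nil =>
    rw [List.nil_append, List.nil_append]
    omega
  | cons a m ih =>
    rcases m with _ | ⟨b, m⟩
    · rcases l with _ | ⟨y, l⟩
      · simp only [List.nil_append, List.cons_append]
        omega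
      · simp only [List.nil_append, List.cons_append, leftT]
        split_ifs <;> omega
    · rcases m with _ | ⟨c, m⟩
      · simp only [List.nil_append, List.cons_append] at ih ⊢
        have e1 : leftT (a :: b :: s :: l) = (if 0 < cross a b s then 1 else 0) +
          leftT (b :: s :: l) := rfl
        have e2 : leftT [a, b, s] = (if 0 < cross a b s then 1 else 0) + leftT [b, s] := rfl
        rw [e1, e2]
        omega
      · simp only [List.cons_append] at ih ⊢
        have e1 : leftT (a :: b :: c :: (m ++ s :: l)) = (if 0 < cross a b c then 1 else 0) +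
          leftT (b :: c :: (m ++ s :: l)) := rfl
        have e2 : leftT (a :: b :: c :: (m ++ [s])) = (if 0 < cross a b c then 1 else 0) +
          leftT (b :: c :: (m ++ [s])) := rfl
        rw [e1, e2]
        omega

/-- Number of left turns of a glued chain without left turn at the cut point. -/
theorem Glue_leftT_append (m l : List (ℝ × ℝ)) (x s y : ℝ × ℝ) (hn : ¬ 0 < cross x s y) :
    leftT (m ++ x :: s :: y :: l) = leftT (m ++ [x, s]) + leftT (s :: y :: l) := by
  induction m with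
  | nil =>
    rw [List.nil_append, List.nil_append, Glue_leftT_cons x s y l hn]
    have e : leftT [x, s] = 0 := rfl
    rw [e, zero_add]
  | cons a m ih =>
    rcases m with _ | ⟨b, m⟩
    · simp only [List.nil_append, List.cons_append] at ih ⊢
      have e1 : leftT (a :: x :: s :: y :: l) = (if 0 < cross a x s then 1 else 0) +
        leftT (x :: s :: y :: l) := rfl
      have e2 : leftT [a, x, s] = (if 0 < cross a x s then 1 else 0) + leftT [x, s] := rfl
      rw [e1, e2, ih]
      omega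
    · rcases m with _ | ⟨c, m⟩
      · simp only [List.nil_append, List.cons_append] at ih ⊢
        have e1 : leftT (a :: b :: x :: s :: y :: l) = (if 0 < cross a b x then 1 else 0) +
          leftT (b :: x :: s :: y :: l) := rfl
        have e2 : leftT [a, b, x, s] = (if 0 < cross a b x then 1 else 0) +
          leftT [b, x, s] := rfl
        rw [e1, e2, ih]
        omega
      · simp only [List.cons_append] at ih ⊢
        have e1 : leftT (a :: b :: c :: (m ++ x :: s :: y :: l)) =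
          (if 0 < cross a b c then 1 else 0) + leftT (b :: c :: (m ++ x :: s :: y :: l)) := rfl
        have e2 : leftT (a :: b :: c :: (m ++ [x, s])) = (if 0 < cross a b c then 1 else 0) +
          leftT (b :: c :: (m ++ [x, s])) := rfl
        rw [e1, e2, ih]
        omega

theorem Glue_avoid_append (a b s : ℝ × ℝ) (x y : List (ℝ × ℝ)) (h1 : AvoidE a b (x ++ [s]))
    (h2 : AvoidE a b (s :: y)) : AvoidE a b (x ++ s :: y) := by
  induction x with
  | nil => exact h2
  | cons c x ih =>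
    rcases x with _ | ⟨d, x⟩
    · exact ⟨h1.1, h2⟩
    · exact ⟨h1.1, ih h1.2⟩

theorem Glue_avoid_convex (a b : ℝ × ℝ) (Q : Set (ℝ × ℝ)) (hQ : Convex ℝ Q)
    (hab : ∀ z ∈ segment ℝ a b, z ∉ Q) (l : List (ℝ × ℝ)) (hl : ∀ x ∈ l, x ∈ Q) :
    AvoidE a b l := by
  induction l with
  | nil => exact trivial
  | cons c l ih =>
    rcases l with _ | ⟨d, l⟩
    · exact trivial
    · refine ⟨fun z hz hz' => hab z hz ?_, ih fun x hx => hl x (List.mem_cons_of_mem _ hx)⟩
      exact hQ.segment_subset (hl c List.mem_cons_self)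
        (hl d (List.mem_cons_of_mem _ List.mem_cons_self)) hz'

theorem Glue_convex_ge (a b t : ℝ) : Convex ℝ {p : ℝ × ℝ | t ≤ a * p.1 + b * p.2} := by
  intro x hx y hy u v hu hv huv
  simp only [Set.mem_ofPred_eq, Prod.fst_add, Prod.snd_add, Prod.smul_fst, Prod.smul_snd,
    smul_eq_mul] at hx hy ⊢
  have e : a * (u * x.1 + v * y.1) + b * (u * x.2 + v * y.2) =
    u * (a * x.1 + b * x.2) + v * (a * y.1 + b * y.2) := by ring
  have e2 : t = u * t + v * t := by rw [← add_mul, huv, one_mul]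
  rw [e]
  linarith [mul_le_mul_of_nonneg_left hx hu, mul_le_mul_of_nonneg_left hy hv]

theorem Glue_convex_gt (a b t : ℝ) : Convex ℝ {p : ℝ × ℝ | t < a * p.1 + b * p.2} := by
  intro x hx y hy u v hu hv huv
  simp only [Set.mem_ofPred_eq, Prod.fst_add, Prod.snd_add, Prod.smul_fst, Prod.smul_snd,
    smul_eq_mul] at hx hy ⊢
  have e : a * (u * x.1 + v * y.1) + b * (u * x.2 + v * y.2) =
    u * (a * x.1 + b * x.2) + v * (a * y.1 + b * y.2) := by ring
  have e2 : t = u * t + v * t := by rw [← add_mul, huv, one_mul]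
  rw [e]
  rcases eq_or_lt_of_le hu with h | h
  · have hv1 : v = 1 := by linarith
    rw [← h, hv1]
    linarith
  · linarith [mul_lt_mul_of_pos_left hx h, mul_le_mul_of_nonneg_left hy.le hv]

theorem Glue_convex_le (a b t : ℝ) : Convex ℝ {p : ℝ × ℝ | a * p.1 + b * p.2 ≤ t} := by
  intro x hx y hy u v hu hv huv
  simp only [Set.mem_ofPred_eq, Prod.fst_add, Prod.snd_add, Prod.smul_fst, Prod.smul_snd,
    smul_eq_mul] at hx hy ⊢
  have e : a * (u * x.1 + v * y.1) + b * (u * x.2 + v * y.2) =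
    u * (a * x.1 + b * x.2) + v * (a * y.1 + b * y.2) := by ring
  have e2 : t = u * t + v * t := by rw [← add_mul, huv, one_mul]
  rw [e]
  linarith [mul_le_mul_of_nonneg_left hx hu, mul_le_mul_of_nonneg_left hy hv]

theorem Glue_convex_lt (a b t : ℝ) : Convex ℝ {p : ℝ × ℝ | a * p.1 + b * p.2 < t} := by
  intro x hx y hy u v hu hv huv
  simp only [Set.mem_ofPred_eq, Prod.fst_add, Prod.snd_add, Prod.smul_fst, Prod.smul_snd,
    smul_eq_mul] at hx hy ⊢
  have e : a * (u * x.1 + v * y.1) + b * (u * x.2 + v * y.2) =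
    u * (a * x.1 + b * x.2) + v * (a * y.1 + b * y.2) := by ring
  have e2 : t = u * t + v * t := by rw [← add_mul, huv, one_mul]
  rw [e]
  rcases eq_or_lt_of_le hu with h | h
  · have hv1 : v = 1 := by linarith
    rw [← h, hv1]
    linarith
  · linarith [mul_lt_mul_of_pos_left hx h, mul_le_mul_of_nonneg_left hy.le hv]

theorem Glue_simple (a b : ℝ) (s : ℝ × ℝ) (m l : List (ℝ × ℝ))
    (hm : ∀ x ∈ m, a * x.1 + b * x.2 < a * s.1 + b * s.2)
    (hl : ∀ x ∈ l, a * s.1 + b * s.2 < a * x.1 + b * x.2)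
    (h1 : SimpleE (m ++ [s])) (h2 : SimpleE (s :: l)) : SimpleE (m ++ s :: l) := by
  have havoid : ∀ p q : ℝ × ℝ, a * p.1 + b * p.2 < a * s.1 + b * s.2 →
      a * q.1 + b * q.2 < a * s.1 + b * s.2 → AvoidE p q (s :: l) := by
    intro p q hp hq
    refine Glue_avoid_convex p q _ (Glue_convex_ge a b (a * s.1 + b * s.2)) ?_ _ ?_
    · intro z hz
      have hz1 := (Glue_convex_lt a b (a * s.1 + b * s.2)).segment_subset
        (by rw [Set.mem_ofPred_eq]; exact hp) (by rw [Set.mem_ofPred_eq]; exact hq) hz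
      rw [Set.mem_ofPred_eq] at hz1 ⊢
      exact not_le.2 hz1
    · intro x hx
      rw [Set.mem_ofPred_eq]
      rcases List.mem_cons.1 hx with rfl | hx
      · exact le_refl _
      · exact (hl x hx).le
  have havoid2 : ∀ p : ℝ × ℝ, a * p.1 + b * p.2 < a * s.1 + b * s.2 → AvoidE p s l := by
    intro p hp
    refine Glue_avoid_convex p s _ (Glue_convex_gt a b (a * s.1 + b * s.2)) ?_ _
      (fun x hx => by rw [Set.mem_ofPred_eq]; exact hl x hx)
    intro z hz
    have hz1 := (Glue_convex_le a b (a * s.1 + b * s.2)).segment_subset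
      (by rw [Set.mem_ofPred_eq]; exact hp.le) (by rw [Set.mem_ofPred_eq]) hz
    rw [Set.mem_ofPred_eq] at hz1 ⊢
    exact not_lt.2 hz1
  induction m with
  | nil => exact h2
  | cons c m ih =>
    have hc := hm c List.mem_cons_self
    have hm' : ∀ x ∈ m, a * x.1 + b * x.2 < a * s.1 + b * s.2 := fun x hx =>
      hm x (List.mem_cons_of_mem _ hx)
    rcases m with _ | ⟨d, m⟩
    · rcases l with _ | ⟨y, l⟩
      · exact trivial
      · exact ⟨havoid2 c hc, h2⟩
    · have hd := hm' d List.mem_cons_self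
      rcases m with _ | ⟨e, m⟩
      · exact ⟨havoid c d hc hd, ih hm' h1.2⟩
      · exact ⟨Glue_avoid_append c d s (e :: m) l h1.1 (havoid c d hc hd), ih hm' h1.2⟩

theorem Glue_core {S S1 S2 : Finset (ℝ × ℝ)} {v w s : ℝ × ℝ} (h : Split S S1 S2 v w s)
    (m l : List (ℝ × ℝ)) (h1n : (m ++ [s]).Nodup) (h1m : ∀ z, z ∈ m ++ [s] ↔ z ∈ S1)
    (h1h : (m ++ [s]).head? = some v) (h1s : SimpleE (m ++ [s]))
    (h2n : (s :: l).Nodup) (h2m : ∀ z, z ∈ s :: l ↔ z ∈ S2)
    (h2l : (s :: l).getLast? = some w) (h2s : SimpleE (s :: l)) :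
    (m ++ s :: l).Nodup ∧ (∀ x, x ∈ m ++ s :: l ↔ x ∈ S) ∧ (m ++ s :: l).head? = some v ∧
      (m ++ s :: l).getLast? = some w ∧ SimpleE (m ++ s :: l) := by
  have hms : s ∉ m := by
    intro hs
    rw [List.nodup_append] at h1n
    exact h1n.2.2 s hs s (by simp) rfl
  have hls : s ∉ l := (List.nodup_cons.1 h2n).1
  have hm1 : ∀ x ∈ m, x ∈ S1 ∧ x ≠ s := by
    intro x hx
    refine ⟨(h1m x).1 (List.mem_append_left _ hx), ?_⟩
    rintro rfl
    exact hms hx
  have hl2 : ∀ x ∈ l, x ∈ S2 ∧ x ≠ s := by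
    intro x hx
    refine ⟨(h2m x).1 (List.mem_cons_of_mem _ hx), ?_⟩
    rintro rfl
    exact hls hx
  obtain ⟨a, b, ha, hb⟩ := h.sep
  refine ⟨?_, ?_, ?_, ?_, ?_⟩
  · rw [List.nodup_append]
    refine ⟨(List.nodup_append.1 h1n).1, h2n, ?_⟩
    intro x hx y hy hxy
    subst hxy
    have h3 := hm1 x hx
    have h4 := (h2m x).1 hy
    exact h3.2 (h.inter x h3.1 h4)
  · intro x
    rw [List.mem_append, h.mem_iff, ← h1m, ← h2m, List.mem_append, List.mem_singleton,
      List.mem_cons]
    tauto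
  · rcases m with _ | ⟨c, m⟩
    · simpa using h1h
    · simpa using h1h
  · rw [List.getLast?_append_cons]
    exact h2l
  · exact Glue_simple a b s m l (fun x hx => ha x (hm1 x hx).1 (hm1 x hx).2)
      (fun x hx => hb x (hl2 x hx).1 (hl2 x hx).2) h1s h2s

/-- **Gluing.** -/
theorem Split.glue {S S1 S2 : Finset (ℝ × ℝ)} {v w s : ℝ × ℝ} (h : Split S S1 S2 v w s)
    {r1 r2 : ℕ} (h1 : TP S1 v s r1) (h2 : TP S2 s w r2) : TP S v w (r1 + r2 + 1) := by
  obtain ⟨l1, a1, a2, a3, a4, a5, a6⟩ := h1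
  obtain ⟨l2, b1, b2, b3, b4, b5, b6⟩ := h2
  obtain ⟨m, rfl⟩ := List.getLast?_eq_some_iff.1 a4
  obtain ⟨l, rfl⟩ := List.head?_eq_some_iff.1 b3
  obtain ⟨c1, c2, c3, c4, c5⟩ := Glue_core h m l a1 a2 a3 a5 b1 b2 b4 b5
  refine ⟨m ++ s :: l, c1, c2, c3, c4, c5, ?_⟩
  have := leftT_append m l s
  omega

/-- Gluing with the exact turn at the cut point: if the first path ends with the edge `x s`, the
second one starts with the edge `s y` and `x s y` is not a left turn, nothing is lost. -/
theorem Split.glue_right {S S1 S2 : Finset (ℝ × ℝ)} {v w s : ℝ × ℝ} (h : Split S S1 S2 v w s)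
    (m l : List (ℝ × ℝ)) (x y : ℝ × ℝ)
    (h1 : (m ++ [x, s]).Nodup ∧ (∀ z, z ∈ m ++ [x, s] ↔ z ∈ S1) ∧
      (m ++ [x, s]).head? = some v ∧ SimpleE (m ++ [x, s]))
    (h2 : (s :: y :: l).Nodup ∧ (∀ z, z ∈ s :: y :: l ↔ z ∈ S2) ∧
      (s :: y :: l).getLast? = some w ∧ SimpleE (s :: y :: l))
    (ht : ¬ 0 < cross x s y) :
    TP S v w (leftT (m ++ [x, s]) + leftT (s :: y :: l)) := by
  have e : m ++ [x, s] = (m ++ [x]) ++ [s] := by simp
  obtain ⟨a1, a2, a3, a4⟩ := h1
  obtain ⟨b1, b2, b3, b4⟩ := h2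
  rw [e] at a1 a2 a3 a4
  obtain ⟨c1, c2, c3, c4, c5⟩ := Glue_core h (m ++ [x]) (y :: l) a1 a2 a3 a4 b1 b2 b3 b4
  refine ⟨(m ++ [x]) ++ s :: y :: l, c1, c2, c3, c4, c5, ?_⟩
  have e2 : (m ++ [x]) ++ s :: y :: l = m ++ x :: s :: y :: l := by simp
  rw [e2, Glue_leftT_append m l x s y ht]

end Pool.Agent.Lib.MP_9bb24e_co
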